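import Mathlib

/-!
# Groups all of whose subgroups are finitely generated
-/

namespace Pool.Agent.MalcevCoh

universe u v

/-- All subgroups of `G` are finitely generated. -/
def SubFG (G : Type u) [Group G] : Prop := ∀ K : Subgroup G, K.FG

theorem SubFG.of_finite (G : Type u) [Group G] [Finite G] : SubFG G := by
  intro K
  exact (Group.fg_iff_subgroup_fg K).1 Group.fg_of_finite

theorem SubFG.of_comm (G : Type u) [CommGroup G] [Group.FG G] : SubFG G := by
  intro K
  have h1 : AddGroup.FG (Additive G) := inferInstance
  have h2 : Module.Finite ℤ (Additive G) := Module.Finite.iff_addGroup_fg.2 h1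
  have h3 : IsNoetherian ℤ (Additive G) := inferInstance
  have h4 : (AddSubgroup.toIntSubmodule (Subgroup.toAddSubgroup K)).FG := h3.noetherian _
  have h5 : (Subgroup.toAddSubgroup K).FG := by
    have := (Submodule.fg_iff_addSubgroup_fg _).1 h4
    simpa using this
  exact (Subgroup.fg_iff_add_fg K).2 h5

theorem SubFG.of_mul_comm (G : Type u) [inst : Group G] [Group.FG G]
    (h : ∀ a b : G, a * b = b * a) : SubFG G :=
  @SubFG.of_comm G { inst with mul_comm := h } _

theorem SubFG.of_injective {G : Type u} {G' : Type v} [Group G] [Group G'] (f : G →* G')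
    (hf : Function.Injective f) (h : SubFG G') : SubFG G := by
  intro K
  have h1 : (K.map f).FG := h _
  rw [Subgroup.fg_iff_submonoid_fg] at h1 ⊢
  exact Submonoid.FG.map_injective f hf h1

theorem SubFG.subgroup {G : Type u} [Group G] (h : SubFG G) (H : Subgroup G) : SubFG H :=
  SubFG.of_injective H.subtype H.subtype_injective h

theorem SubFG.of_surjective {G : Type u} {G' : Type v} [Group G] [Group G'] (f : G →* G')
    (hf : Function.Surjective f) (h : SubFG G) : SubFG G' := by
  intro K
  have h1 : (K.comap f).FG := h _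
  have h2 : (K.comap f).map f = K := Subgroup.map_comap_eq_self_of_surjective hf K
  rw [← h2]
  rw [Subgroup.fg_iff_submonoid_fg] at h1 ⊢
  exact Submonoid.FG.map h1 f

theorem SubFG.extension {G : Type u} {G' : Type v} [Group G] [Group G'] (f : G →* G')
    (hker : SubFG f.ker) (h : SubFG G') : SubFG G := by
  intro K
  obtain ⟨T', hT', hfin⟩ := (Subgroup.fg_iff _).1 (h (K.map f))
  have hmem : ∀ t ∈ T', ∃ k ∈ K, f k = t := by
    intro t ht
    have : t ∈ K.map f := by rw [← hT']; exact Subgroup.subset_closure ht
    simpa using this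
  choose! g hgK hg using hmem
  have h2 : (K ⊓ f.ker).FG := by
    have h3 := hker ((K ⊓ f.ker).subgroupOf f.ker)
    have h4 : ((K ⊓ f.ker).subgroupOf f.ker).map f.ker.subtype = K ⊓ f.ker := by
      rw [Subgroup.subgroupOf_map_subtype]
      simp
    rw [← h4]
    rw [Subgroup.fg_iff_submonoid_fg] at h3 ⊢
    exact Submonoid.FG.map h3 f.ker.subtype
  have h5 : K = Subgroup.closure (g '' T') ⊔ (K ⊓ f.ker) := by
    apply le_antisymm
    · intro k hk
      have hfk : f k ∈ (Subgroup.closure (g '' T')).map f := by
        rw [MonoidHom.map_closure, ← Set.image_comp]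
        have : (f ∘ g) '' T' = T' := by
          ext t
          constructor
          · rintro ⟨s, hs, rfl⟩
            simpa [hg s hs] using hs
          · intro ht
            exact ⟨t, ht, hg t ht⟩
        rw [this, hT']
        exact Subgroup.mem_map_of_mem f hk
      obtain ⟨c, hc, hck⟩ := hfk
      have hcK : c ∈ K := by
        have : Subgroup.closure (g '' T') ≤ K := by
          rw [Subgroup.closure_le]
          rintro _ ⟨t, ht, rfl⟩
          exact hgK t ht
        exact this hc
      have : k = c * (c⁻¹ * k) := by group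
      rw [this]
      apply Subgroup.mul_mem_sup hc
      refine ⟨K.mul_mem (K.inv_mem hcK) hk, ?_⟩
      simp [hck]
    · refine sup_le ?_ inf_le_left
      rw [Subgroup.closure_le]
      rintro _ ⟨t, ht, rfl⟩
      exact hgK t ht
  rw [h5]
  refine Subgroup.FG.sup ?_ h2
  exact (Subgroup.fg_iff _).2 ⟨g '' T', rfl, hfin.image g⟩

theorem SubFG.prod {G : Type u} {G' : Type v} [Group G] [Group G'] (h : SubFG G)
    (h' : SubFG G') : SubFG (G × G') := by
  refine SubFG.extension (MonoidHom.snd G G') ?_ h'
  refine SubFG.of_injective ((MonoidHom.fst G G').comp (MonoidHom.snd G G').ker.subtype) ?_ h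
  rintro ⟨⟨a, b⟩, hab⟩ ⟨⟨c, d⟩, hcd⟩ heq
  simp only [MonoidHom.mem_ker, MonoidHom.coe_snd] at hab hcd
  simp only [MonoidHom.coe_comp, MonoidHom.coe_fst, Function.comp_apply, Subgroup.subtype_apply] at heq
  subst hab hcd heq
  rfl

theorem SubFG.of_finiteIndex {G : Type u} [Group G] (N : Subgroup G) [N.FiniteIndex]
    (h : SubFG N) : SubFG G := by
  have h1 : SubFG N.normalCore := by
    refine SubFG.of_injective (Subgroup.inclusion N.normalCore_le)
      (Subgroup.inclusion_injective _) h
  refine SubFG.extension (QuotientGroup.mk' N.normalCore) ?_ (SubFG.of_finite _)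
  rw [QuotientGroup.ker_mk']
  exact h1

end Pool.Agent.MalcevCoh
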