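import Mathlib
import Pool.Agent.MalcevCoh.Noeth

/-!
# Finitely generated virtually nilpotent groups

Their subgroups are finitely generated, every kernel of a surjection from a finitely generated
group onto them is the normal closure of a finite set, and they satisfy a semigroup identity
which gives common right multiples.
-/

namespace Pool.Agent.MalcevCoh

universe u v

open Subgroup
open scoped commutatorElement

/-- Iterated commutators `⁅...⁅⁅b₀, b₁⁆, b₂⁆, ..., bₙ⁆` of elements of `B`. -/
def iterComm {G : Type u} [Group G] (B : Set G) : ℕ → Set G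
  | 0 => B
  | n + 1 => Set.image2 (fun w b => ⁅w, b⁆) (iterComm B n) B

theorem iterComm_finite {G : Type u} [Group G] {B : Set G} (hB : B.Finite) (n : ℕ) :
    (iterComm B n).Finite := by
  induction n with
  | zero => exact hB
  | succ n ih => exact ih.image2 _ hB

theorem image_iterComm {G : Type u} {G' : Type v} [Group G] [Group G'] (f : G →* G')
    (B : Set G) (n : ℕ) : f '' iterComm B n = iterComm (f '' B) n := by
  induction n with
  | zero => rfl
  | succ n ih =>
    change f '' (Set.image2 _ _ _) = Set.image2 _ _ _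
    rw [← ih]
    rw [Set.image_image2, Set.image2_image_left, Set.image2_image_right]
    simp only [map_commutatorElement]

theorem upper_eq_top_of_iterComm (c : ℕ) : ∀ (G : Type u) [Group G] (B : Set G),
    closure B = ⊤ → iterComm B c ⊆ {1} → Subgroup.upperCentralSeries G c = ⊤ := by
  induction c with
  | zero =>
    intro G _ B hB h
    change B ⊆ {1} at h
    rw [Subgroup.upperCentralSeries_zero, ← hB]
    exact (closure_eq_bot_iff.2 h).symm
  | succ c ih =>
    intro G _ B hB h
    have h1 : iterComm B c ⊆ (center G : Set G) := by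
      intro w hw
      have h2 : ∀ b ∈ B, w * b = b * w := by
        intro b hb
        have : ⁅w, b⁆ ∈ ({1} : Set G) := h ⟨w, hw, b, hb, rfl⟩
        have h3 : ⁅w, b⁆ = 1 := this
        rwa [commutatorElement_eq_one_iff_mul_comm] at h3
      have h3 : (⊤ : Subgroup G) ≤ centralizer {w} := by
        rw [← hB, closure_le]
        intro b hb
        rw [SetLike.mem_coe, mem_centralizer_singleton_iff]
        exact (h2 b hb).symm
      rw [SetLike.mem_coe, mem_center_iff]
      intro g
      have := h3 (mem_top g)
      rwa [mem_centralizer_singleton_iff] at this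
    have h4 : Subgroup.upperCentralSeries (G ⧸ center G) c = ⊤ := by
      apply ih (G ⧸ center G) (QuotientGroup.mk' (center G) '' B)
      · rw [← MonoidHom.map_closure, hB]
        exact map_top_of_surjective _ (QuotientGroup.mk'_surjective _)
      · rw [← image_iterComm]
        rintro _ ⟨w, hw, rfl⟩
        rw [Set.mem_singleton_iff]
        exact (QuotientGroup.eq_one_iff w).2 (h1 hw)
    rw [← Subgroup.comap_upperCentralSeries_quotient_center, h4, comap_top]

theorem iterComm_subset_of_upper (c : ℕ) (G : Type u) [Group G] (B : Set G)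
    (h : Subgroup.upperCentralSeries G c = ⊤) : iterComm B c ⊆ {1} := by
  have h1 : ∀ n, iterComm B n ⊆ ((⊤ : Subgroup G).lowerCentralSeries n : Set G) := by
    intro n
    induction n with
    | zero => intro x _; simp
    | succ n ih =>
      rintro _ ⟨w, hw, b, hb, rfl⟩
      rw [Subgroup.lowerCentralSeries_succ]
      exact commutator_mem_commutator (ih hw) (mem_top b)
  have h2 := lowerCentralSeries_eq_bot_iff_upperCentralSeries_eq_top.2 h
  intro x hx
  have := h1 c hx
  rw [h2] at this
  simpa using this

/-- If the finitely generated groups with `Subgroup.upperCentralSeries G c = ⊤` have all their subgroups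
finitely generated, then kernels of surjections onto them are finitely normally generated. -/
theorem fnk_step (c : ℕ)
    (hS : ∀ (G : Type u) [Group G] [Group.FG G], Subgroup.upperCentralSeries G c = ⊤ → SubFG G)
    (F : Type u) (H : Type v) [Group F] [Group H] [Group.FG F] (φ : F →* H)
    (hH : Subgroup.upperCentralSeries H c = ⊤) :
    φ.ker.IsFinitelyNormallyGenerated := by
  obtain ⟨B, hB, hBfin⟩ := Group.fg_iff.1 (inferInstance : Group.FG F)
  set Z := iterComm B c with hZ
  have hZfin : Z.Finite := iterComm_finite hBfin c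
  have hZker : Z ⊆ φ.ker := by
    intro z hz
    have h1 : φ z ∈ iterComm (φ '' B) c := by
      rw [← image_iterComm]
      exact ⟨z, hz, rfl⟩
    have := iterComm_subset_of_upper c H (φ '' B) hH h1
    simpa using this
  set N := normalClosure Z with hN
  have hNker : N ≤ φ.ker := normalClosure_le_normal hZker
  have hup : Subgroup.upperCentralSeries (F ⧸ N) c = ⊤ := by
    apply upper_eq_top_of_iterComm c (F ⧸ N) (QuotientGroup.mk' N '' B)
    · rw [← MonoidHom.map_closure, hB]
      exact map_top_of_surjective _ (QuotientGroup.mk'_surjective _)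
    · rw [← image_iterComm]
      rintro _ ⟨w, hw, rfl⟩
      rw [Set.mem_singleton_iff]
      exact (QuotientGroup.eq_one_iff w).2 (subset_normalClosure hw)
  have hsub : SubFG (F ⧸ N) := hS (F ⧸ N) hup
  have hfg : (φ.ker.map (QuotientGroup.mk' N)).FG := hsub _
  have hnorm : (φ.ker.map (QuotientGroup.mk' N)).Normal :=
    Subgroup.Normal.map inferInstance _ (QuotientGroup.mk'_surjective _)
  have h1 : (φ.ker.map (QuotientGroup.mk' N)).IsFinitelyNormallyGenerated := by
    have : Group.FG (φ.ker.map (QuotientGroup.mk' N)) := (Group.fg_iff_subgroup_fg _).2 hfg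
    exact Subgroup.IsFinitelyNormallyGenerated.of_FG _
  have h2 : ((φ.ker.map (QuotientGroup.mk' N)).comap
      (QuotientGroup.mk' N)).IsFinitelyNormallyGenerated := by
    refine h1.comap (QuotientGroup.mk'_surjective _) ?_
    rw [QuotientGroup.ker_mk']
    exact ⟨Z, hZfin, rfl⟩
  rw [comap_map_eq, QuotientGroup.ker_mk', sup_eq_left.2 hNker] at h2
  exact h2

theorem subFG_of_upper (c : ℕ) : ∀ (G : Type u) [Group G] [Group.FG G],
    Subgroup.upperCentralSeries G c = ⊤ → SubFG G := by
  induction c with
  | zero =>
    intro G _ _ h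
    rw [Subgroup.upperCentralSeries_zero] at h
    have : Subsingleton G := by
      constructor
      intro a b
      have ha : a ∈ (⊥ : Subgroup G) := by rw [h]; exact mem_top a
      have hb : b ∈ (⊥ : Subgroup G) := by rw [h]; exact mem_top b
      rw [mem_bot] at ha hb
      rw [ha, hb]
    exact SubFG.of_finite G
  | succ c ih =>
    intro G _ _ h
    have h4 : Subgroup.upperCentralSeries (G ⧸ center G) c = ⊤ := by
      rw [← Subgroup.comap_upperCentralSeries_quotient_center] at h
      have h5 := congrArg (Subgroup.map (QuotientGroup.mk' (center G))) h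
      rw [map_comap_eq_self_of_surjective (QuotientGroup.mk'_surjective _),
        map_top_of_surjective _ (QuotientGroup.mk'_surjective _)] at h5
      exact h5
    have h5 := fnk_step c ih G (G ⧸ center G) (QuotientGroup.mk' (center G)) h4
    rw [QuotientGroup.ker_mk'] at h5
    obtain ⟨S, hSfin, hS⟩ := h5
    have hScen : S ⊆ center G := by rw [← hS]; exact subset_normalClosure
    have hSn : (closure S).Normal := by
      constructor
      intro x hx g
      have hx' : x ∈ center G := (closure_le _).2 hScen hx
      have : g * x * g⁻¹ = x := by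
        rw [mem_center_iff.1 hx' g]; group
      rwa [this]
    have hScl : closure S = center G := by
      rw [← hS]
      exact le_antisymm closure_le_normalClosure (normalClosure_le_normal subset_closure)
    have hfg : Group.FG (center G) := by
      rw [Group.fg_iff_subgroup_fg]
      exact (Subgroup.fg_iff _).2 ⟨S, hScl, hSfin⟩
    refine SubFG.extension (QuotientGroup.mk' (center G)) ?_ (ih _ h4)
    rw [QuotientGroup.ker_mk']
    refine SubFG.of_mul_comm (center G) ?_
    rintro ⟨a, ha⟩ ⟨b, hb⟩
    exact Subtype.ext (mem_center_iff.1 hb a)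

theorem subFG_of_virtuallyNilpotent (G : Type u) [Group G] [Group.FG G]
    (hG : Group.IsVirtuallyNilpotent G) : SubFG G := by
  obtain ⟨N, hN, hfi⟩ := hG
  obtain ⟨c, hc⟩ := hN.nilpotent
  exact SubFG.of_finiteIndex N (subFG_of_upper c N hc)

theorem fnk_of_virtuallyNilpotent (F : Type u) (G : Type v) [Group F] [Group G] [Group.FG F]
    (φ : F →* G) (hφ : Function.Surjective φ) (hG : Group.IsVirtuallyNilpotent G) :
    φ.ker.IsFinitelyNormallyGenerated := by
  obtain ⟨N, hN, hfi⟩ := hG
  obtain ⟨c, hc⟩ := hN.nilpotent
  have hfi' : (N.comap φ).FiniteIndex := by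
    constructor
    rw [index_comap_of_surjective N hφ]
    exact hfi.index_ne_zero
  set ψ : N.comap φ →* N := φ.subgroupComap N with hψ
  have h1 := fnk_step c (fun G _ _ => subFG_of_upper c G) (N.comap φ) N ψ hc
  obtain ⟨S, hSfin, hS⟩ := h1
  refine ⟨(N.comap φ).subtype '' S, hSfin.image _, ?_⟩
  apply le_antisymm
  · apply normalClosure_le_normal
    rintro _ ⟨s, hs, rfl⟩
    have : s ∈ ψ.ker := by rw [← hS]; exact subset_normalClosure hs
    have h2 : ψ s = 1 := this
    have h3 : ((ψ s : N) : G) = 1 := by rw [h2]; rfl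
    exact h3
  · intro x hx
    have hx1 : φ x = 1 := hx
    have hxN : x ∈ N.comap φ := by
      rw [mem_comap, hx1]; exact N.one_mem
    have h2 : (⟨x, hxN⟩ : N.comap φ) ∈ ψ.ker := by
      rw [MonoidHom.mem_ker]
      apply Subtype.ext
      exact hx1
    rw [← hS] at h2
    have h3 : normalClosure S ≤
        (normalClosure ((N.comap φ).subtype '' S)).comap (N.comap φ).subtype := by
      apply normalClosure_le_normal
      intro s hs
      exact subset_normalClosure ⟨s, hs, rfl⟩
    exact h3 h2

/-- The pairs `(a, b)`, `(ab, ba)`, `(abba, baab)`, ... -/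
def commonMul {G : Type u} [Monoid G] (a b : G) : ℕ → G × G
  | 0 => (a, b)
  | n + 1 => ((commonMul a b n).1 * (commonMul a b n).2, (commonMul a b n).2 * (commonMul a b n).1)

theorem map_commonMul {G : Type u} {G' : Type v} [Monoid G] [Monoid G'] (f : G →* G') (a b : G)
    (n : ℕ) : commonMul (f a) (f b) n = (f (commonMul a b n).1, f (commonMul a b n).2) := by
  induction n with
  | zero => rfl
  | succ n ih => simp only [commonMul, ih, map_mul]

theorem commonMul_eq_of_upper (c : ℕ) : ∀ (G : Type u) [Group G] (a b : G),
    Subgroup.upperCentralSeries G c = ⊤ → (commonMul a b c).1 = (commonMul a b c).2 := by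
  induction c with
  | zero =>
    intro G _ a b h
    rw [Subgroup.upperCentralSeries_zero] at h
    have ha : a ∈ (⊥ : Subgroup G) := by rw [h]; exact mem_top a
    have hb : b ∈ (⊥ : Subgroup G) := by rw [h]; exact mem_top b
    rw [mem_bot] at ha hb
    simp [commonMul, ha, hb]
  | succ c ih =>
    intro G _ a b h
    have h4 : Subgroup.upperCentralSeries (G ⧸ center G) c = ⊤ := by
      rw [← Subgroup.comap_upperCentralSeries_quotient_center] at h
      have h5 := congrArg (Subgroup.map (QuotientGroup.mk' (center G))) h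
      rw [map_comap_eq_self_of_surjective (QuotientGroup.mk'_surjective _),
        map_top_of_surjective _ (QuotientGroup.mk'_surjective _)] at h5
      exact h5
    have h6 := ih (G ⧸ center G) (QuotientGroup.mk' (center G) a)
      (QuotientGroup.mk' (center G) b) h4
    rw [map_commonMul] at h6
    simp only [QuotientGroup.mk'_apply] at h6
    rw [QuotientGroup.eq] at h6
    set q := (commonMul a b c).1
    set r := (commonMul a b c).2
    change q * r = r * q
    have h7 := mem_center_iff.1 h6 q
    have h8 : q * (q⁻¹ * r) * q = q⁻¹ * r * q * q := by rw [h7]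
    have h9 : r * q = q⁻¹ * r * q * q := by rw [← h8]; group
    have h10 : q * (q⁻¹ * r) * q = (q * q) * (q⁻¹ * r) := by
      rw [mul_assoc q (q⁻¹ * r) q, ← mem_center_iff.1 h6 q, mul_assoc]
    have h11 : r * q = (q * q) * (q⁻¹ * r) := by rw [← h10]; group
    rw [h11]; group

/-- The first components of `commonMul a b n` start with `a`, the second ones with `b`. -/
theorem commonMul_form {G : Type u} [Monoid G] (a b : G) (n : ℕ) :
    ∃ u ∈ Submonoid.closure {a, b}, ∃ w ∈ Submonoid.closure {a, b},
      (commonMul a b n).1 = a * u ∧ (commonMul a b n).2 = b * w := by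
  have ha : a ∈ Submonoid.closure ({a, b} : Set G) := Submonoid.subset_closure (by simp)
  have hb : b ∈ Submonoid.closure ({a, b} : Set G) := Submonoid.subset_closure (by simp)
  induction n with
  | zero => exact ⟨1, Submonoid.one_mem _, 1, Submonoid.one_mem _, by simp [commonMul]⟩
  | succ n ih =>
    obtain ⟨u, hu, w, hw, h1, h2⟩ := ih
    refine ⟨u * (b * w), mul_mem hu (mul_mem hb hw), w * (a * u), mul_mem hw (mul_mem ha hu), ?_, ?_⟩
    · simp only [commonMul, h1, h2, mul_assoc]
    · simp only [commonMul, h1, h2, mul_assoc]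

/-- Common right multiples in submonoids of virtually nilpotent groups. -/
theorem exists_common_right_multiple {G : Type u} [Group G] (hG : Group.IsVirtuallyNilpotent G)
    (S : Submonoid G) (a b : G) (ha : a ∈ S) (hb : b ∈ S) :
    ∃ u ∈ S, ∃ w ∈ S, a * u = b * w := by
  obtain ⟨N, hN, hfi⟩ := hG
  obtain ⟨c, hc⟩ := hN.nilpotent
  have hidx : N.index ≠ 0 := hfi.index_ne_zero
  obtain ⟨m, hm0, hm⟩ : ∃ m : ℕ, 0 < m ∧ ∀ x : G, x ^ m ∈ N := by
    refine ⟨N.normalCore.index, Nat.pos_of_ne_zero ?_, fun x => N.normalCore_le ?_⟩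
    · exact FiniteIndex.index_ne_zero
    · exact N.normalCore.pow_index_mem x
  have h1 := commonMul_eq_of_upper c N ⟨a ^ m, hm a⟩ ⟨b ^ m, hm b⟩ hc
  have h2 := congrArg N.subtype h1
  have h3 := map_commonMul N.subtype ⟨a ^ m, hm a⟩ ⟨b ^ m, hm b⟩ c
  have h4 : (commonMul (a ^ m) (b ^ m) c).1 = (commonMul (a ^ m) (b ^ m) c).2 := by
    have h5 : commonMul (a ^ m) (b ^ m) c = commonMul (N.subtype ⟨a ^ m, hm a⟩)
      (N.subtype ⟨b ^ m, hm b⟩) c := rfl
    rw [h5, h3]
    exact h2
  obtain ⟨u, hu, w, hw, h6, h7⟩ := commonMul_form (a ^ m) (b ^ m) c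
  have hcl : Submonoid.closure {a ^ m, b ^ m} ≤ S := by
    rw [Submonoid.closure_le]
    rintro x (rfl | rfl)
    · exact S.pow_mem ha m
    · exact S.pow_mem hb m
  refine ⟨a ^ (m - 1) * u, S.mul_mem (S.pow_mem ha _) (hcl hu), b ^ (m - 1) * w,
    S.mul_mem (S.pow_mem hb _) (hcl hw), ?_⟩
  have e1 : a * (a ^ (m - 1) * u) = a ^ m * u := by
    rw [← mul_assoc, ← pow_succ', Nat.sub_add_cancel hm0]
  have e2 : b * (b ^ (m - 1) * w) = b ^ m * w := by
    rw [← mul_assoc, ← pow_succ', Nat.sub_add_cancel hm0]
  rw [e1, e2, ← h6, ← h7, h4]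

end Pool.Agent.MalcevCoh
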