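import Mathlib
import Pool.Agent.MalcevCoh.Nilp

/-!
# Homomorphisms from a free monoid to a virtually nilpotent group

Let `e` be a homomorphism from a free monoid of finite rank to a virtually nilpotent group, and
let `φ` be its extension to the free group. We show that finitely many relations `u = v` between
words with `e u = e v` have all of `φ.ker` among their consequences, and that a family of
equations of the form `θ(s) y₁ = y θ(s')` is equivalent to a finite subfamily of it.
-/

namespace Pool.Agent.MalcevCoh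

universe u v

open Subgroup

theorem exists_finite_mem_closure {G : Type u} [Group G] {s : Set G} {x : G}
    (hx : x ∈ closure s) : ∃ t : Set G, t.Finite ∧ t ⊆ s ∧ x ∈ closure t := by
  induction hx using closure_induction with
  | mem x hx => exact ⟨{x}, Set.finite_singleton x, by simpa using hx, subset_closure (by simp)⟩
  | one => exact ⟨∅, Set.finite_empty, by simp, one_mem _⟩
  | mul x y _ _ hx hy =>
    obtain ⟨t, ht, hts, hxt⟩ := hx
    obtain ⟨t', ht', hts', hyt⟩ := hy
    exact ⟨t ∪ t', ht.union ht', Set.union_subset hts hts',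
      mul_mem (closure_mono Set.subset_union_left hxt) (closure_mono Set.subset_union_right hyt)⟩
  | inv x _ hx =>
    obtain ⟨t, ht, hts, hxt⟩ := hx
    exact ⟨t, ht, hts, inv_mem hxt⟩

theorem exists_finite_closure_eq {G : Type u} [Group G] {s : Set G} (h : (closure s).FG) :
    ∃ t : Set G, t.Finite ∧ t ⊆ s ∧ closure t = closure s := by
  obtain ⟨U, hU, hUfin⟩ := (Subgroup.fg_iff _).1 h
  have h1 : ∀ x ∈ U, ∃ t : Set G, t.Finite ∧ t ⊆ s ∧ x ∈ closure t := by
    intro x hx
    apply exists_finite_mem_closure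
    rw [← hU]
    exact subset_closure hx
  choose! t htfin hts hxt using h1
  refine ⟨⋃ x ∈ U, t x, hUfin.biUnion htfin, Set.iUnion₂_subset hts, ?_⟩
  apply le_antisymm
  · exact closure_mono (Set.iUnion₂_subset hts)
  · rw [← hU, closure_le]
    intro x hx
    exact closure_mono (Set.subset_biUnion_of_mem hx) (hxt x hx)

theorem isVirtuallyNilpotent_of_injective {G : Type u} {G' : Type v} [Group G] [Group G']
    (f : G →* G') (hf : Function.Injective f) (h : Group.IsVirtuallyNilpotent G') :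
    Group.IsVirtuallyNilpotent G := by
  obtain ⟨N, hN, hfi⟩ := h
  refine ⟨N.comap f, ?_, ?_⟩
  · have hinj : Function.Injective (f.subgroupComap N) := by
      intro a b hab
      apply Subtype.ext
      apply hf
      exact congrArg Subtype.val hab
    refine Subgroup.isNilpotent_of_ker_le_center (f.subgroupComap N) ?_
    rw [(MonoidHom.ker_eq_bot_iff _).2 hinj]
    exact bot_le
  · constructor
    rw [index_comap]
    have : (N.subgroupOf f.range).FiniteIndex := inferInstance
    exact this.index_ne_zero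

/-- The extension to the free group of a homomorphism defined on the free monoid. -/
def extend {B : Type u} {Q : Type v} [Group Q] (θ : FreeMonoid B →* Q) : FreeGroup B →* Q :=
  FreeGroup.lift fun b => θ (FreeMonoid.of b)

/-- The canonical map from the free monoid to the free group. -/
def toFG (B : Type u) : FreeMonoid B →* FreeGroup B := FreeMonoid.lift FreeGroup.of

theorem extend_toFG {B : Type u} {Q : Type v} [Group Q] (θ : FreeMonoid B →* Q)
    (w : FreeMonoid B) : extend θ (toFG B w) = θ w := by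
  have : (extend θ).comp (toFG B) = θ := by
    apply FreeMonoid.hom_eq
    intro b
    simp [extend, toFG]
  exact DFunLike.congr_fun this w

/-- Every element of the free group is a fraction of words, modulo finitely many relations that
hold in the virtually nilpotent group. -/
theorem exists_fraction {B : Type} {G : Type v} [Group G] (hG : Group.IsVirtuallyNilpotent G)
    (e : FreeMonoid B →* G) (W : FreeGroup B) :
    ∃ (p r : FreeMonoid B) (R : Set (FreeMonoid B × FreeMonoid B)), R.Finite ∧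
      (∀ x ∈ R, e x.1 = e x.2) ∧ extend e W = e p * (e r)⁻¹ ∧
      ∀ (Q : Type) [Group Q] (θ : FreeMonoid B →* Q), (∀ x ∈ R, θ x.1 = θ x.2) →
        extend θ W = θ p * (θ r)⁻¹ := by
  induction W using FreeGroup.induction_on with
  | C1 => exact ⟨1, 1, ∅, Set.finite_empty, by simp, by simp, by simp⟩
  | of b =>
    refine ⟨FreeMonoid.of b, 1, ∅, Set.finite_empty, by simp, by simp [extend], ?_⟩
    intro Q _ θ _
    simp [extend]
  | inv_of b _ =>
    refine ⟨1, FreeMonoid.of b, ∅, Set.finite_empty, by simp, by simp [extend], ?_⟩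
    intro Q _ θ _
    simp [extend]
  | mul W₁ W₂ h₁ h₂ =>
    obtain ⟨p₁, r₁, R₁, hR₁, hL₁, he₁, hθ₁⟩ := h₁
    obtain ⟨p₂, r₂, R₂, hR₂, hL₂, he₂, hθ₂⟩ := h₂
    obtain ⟨u, ⟨u', rfl⟩, w, ⟨w', rfl⟩, huw⟩ := exists_common_right_multiple hG
      (MonoidHom.mrange e) (e r₁) (e p₂) ⟨r₁, rfl⟩ ⟨p₂, rfl⟩
    refine ⟨p₁ * u', r₂ * w', R₁ ∪ R₂ ∪ {(r₁ * u', p₂ * w')},
      (hR₁.union hR₂).union (Set.finite_singleton _), ?_, ?_, ?_⟩
    · rintro x ((hx | hx) | rfl)
      · exact hL₁ x hx
      · exact hL₂ x hx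
      · simpa using huw
    · have h3 : (e r₁)⁻¹ * e p₂ = e u' * (e w')⁻¹ := by
        rw [inv_mul_eq_iff_eq_mul, ← mul_assoc, huw, mul_assoc, mul_inv_cancel, mul_one]
      rw [map_mul, he₁, he₂, map_mul, map_mul]
      calc e p₁ * (e r₁)⁻¹ * (e p₂ * (e r₂)⁻¹) = e p₁ * ((e r₁)⁻¹ * e p₂) * (e r₂)⁻¹ := by group
        _ = e p₁ * e u' * (e r₂ * e w')⁻¹ := by rw [h3]; group
    · intro Q _ θ hθ
      have h4 : θ (r₁ * u') = θ (p₂ * w') := hθ (r₁ * u', p₂ * w') (by simp)
      rw [map_mul, map_mul] at h4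
      have h3 : (θ r₁)⁻¹ * θ p₂ = θ u' * (θ w')⁻¹ := by
        rw [inv_mul_eq_iff_eq_mul, ← mul_assoc, h4, mul_assoc, mul_inv_cancel, mul_one]
      rw [map_mul, hθ₁ Q θ (fun x hx => hθ x (Or.inl (Or.inl hx))),
        hθ₂ Q θ (fun x hx => hθ x (Or.inl (Or.inr hx))), map_mul, map_mul]
      calc θ p₁ * (θ r₁)⁻¹ * (θ p₂ * (θ r₂)⁻¹) = θ p₁ * ((θ r₁)⁻¹ * θ p₂) * (θ r₂)⁻¹ := by group
        _ = θ p₁ * θ u' * (θ r₂ * θ w')⁻¹ := by rw [h3]; group

/-- Finitely many relations between words imply all group relations of the image. -/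
theorem exists_finite_relations {B : Type} [Finite B] {G : Type v} [Group G]
    (hG : Group.IsVirtuallyNilpotent G) (e : FreeMonoid B →* G) :
    ∃ R : Set (FreeMonoid B × FreeMonoid B), R.Finite ∧ (∀ x ∈ R, e x.1 = e x.2) ∧
      ∀ (Q : Type) [Group Q] (θ : FreeMonoid B →* Q), (∀ x ∈ R, θ x.1 = θ x.2) →
        (extend e).ker ≤ (extend θ).ker := by
  have h1 : (extend e).rangeRestrict.ker.IsFinitelyNormallyGenerated :=
    fnk_of_virtuallyNilpotent (FreeGroup B) (extend e).range (extend e).rangeRestrict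
      (extend e).rangeRestrict_surjective
      (isVirtuallyNilpotent_of_injective (extend e).range.subtype
        (extend e).range.subtype_injective hG)
  rw [MonoidHom.ker_rangeRestrict] at h1
  obtain ⟨S, hSfin, hS⟩ := h1
  have h2 : ∀ W ∈ S, ∃ R : Set (FreeMonoid B × FreeMonoid B), R.Finite ∧
      (∀ x ∈ R, e x.1 = e x.2) ∧ ∀ (Q : Type) [Group Q] (θ : FreeMonoid B →* Q),
        (∀ x ∈ R, θ x.1 = θ x.2) → extend θ W = 1 := by
    intro W hW
    obtain ⟨p, r, R, hR, hL, he, hθ⟩ := exists_fraction hG e W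
    have hW1 : extend e W = 1 := by
      have : W ∈ (extend e).ker := by rw [← hS]; exact subset_normalClosure hW
      exact this
    rw [hW1] at he
    have hpr : e p = e r := by
      rw [eq_comm, mul_inv_eq_one] at he
      exact he
    refine ⟨R ∪ {(p, r)}, hR.union (Set.finite_singleton _), ?_, ?_⟩
    · rintro x (hx | rfl)
      · exact hL x hx
      · exact hpr
    · intro Q _ θ h
      rw [hθ Q θ (fun x hx => h x (Or.inl hx)), h (p, r) (Or.inr rfl), mul_inv_cancel]
  choose! R hRfin hRL hRθ using h2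
  refine ⟨⋃ W ∈ S, R W, hSfin.biUnion hRfin, ?_, ?_⟩
  · intro x hx
    simp only [Set.mem_iUnion, exists_prop] at hx
    obtain ⟨W, hW, hx⟩ := hx
    exact hRL W hW x hx
  · intro Q _ θ hθ
    rw [← hS]
    apply normalClosure_le_normal
    intro W hW
    exact hRθ W hW Q θ (fun x hx => hθ x (Set.mem_biUnion hW hx))

/-- A family of equations `θ(s) y₁ = y θ(s')` follows from a finite subfamily. -/
theorem exists_finite_equations {B : Type} [Finite B] {G : Type v} [Group G]
    (hG : Group.IsVirtuallyNilpotent G) (e : FreeMonoid B →* G)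
    (T : Set (FreeMonoid B × FreeMonoid B)) :
    ∃ T' : Set (FreeMonoid B × FreeMonoid B), T'.Finite ∧ T' ⊆ T ∧
      ∀ (Q : Type) [Group Q] (θ : FreeMonoid B →* Q), (extend e).ker ≤ (extend θ).ker →
        ∀ y y₁ : Q, (∀ x ∈ T', θ x.1 * y₁ = y * θ x.2) → ∀ x ∈ T, θ x.1 * y₁ = y * θ x.2 := by
  by_cases hT : T = ∅
  · subst hT
    exact ⟨∅, Set.finite_empty, subset_rfl, by simp⟩
  obtain ⟨x₀, hx₀⟩ := Set.nonempty_iff_ne_empty.2 hT
  have hsub : SubFG ((extend e).range × (extend e).range) := by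
    have : SubFG (extend e).range := by
      apply subFG_of_virtuallyNilpotent
      exact isVirtuallyNilpotent_of_injective (extend e).range.subtype
        (extend e).range.subtype_injective hG
    exact this.prod this
  let Ψ : FreeGroup B × FreeGroup B →* (extend e).range × (extend e).range :=
    MonoidHom.prodMap (extend e).rangeRestrict (extend e).rangeRestrict
  let δ : FreeMonoid B × FreeMonoid B → FreeGroup B × FreeGroup B := fun x =>
    (toFG B x.1 * (toFG B x₀.1)⁻¹, toFG B x.2 * (toFG B x₀.2)⁻¹)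
  obtain ⟨t, htfin, htsub, htcl⟩ := exists_finite_closure_eq
    (hsub (closure ((fun x => Ψ (δ x)) '' T)))
  have h1 : ∀ z ∈ t, ∃ x ∈ T, Ψ (δ x) = z := fun z hz => htsub hz
  choose! g hgT hg using h1
  refine ⟨insert x₀ (g '' t), (htfin.image g).insert x₀, ?_, ?_⟩
  · rintro x (rfl | ⟨z, hz, rfl⟩)
    · exact hx₀
    · exact hgT z hz
  intro Q _ θ hker y y₁ hT' x hx
  have hy₁ : y₁ = (θ x₀.1)⁻¹ * y * θ x₀.2 := by
    have := hT' x₀ (by simp)
    rw [mul_assoc, ← this]; group
  -- the subgroup of the pairs for which the twisted equation holds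
  let E : Subgroup (FreeGroup B × FreeGroup B) :=
    { carrier := {z | extend θ z.1 * y = y * extend θ z.2}
      mul_mem' := by
        intro a b ha hb
        simp only [Set.mem_ofPred_eq, Prod.fst_mul, Prod.snd_mul, map_mul] at ha hb ⊢
        rw [mul_assoc, hb, ← mul_assoc, ha, mul_assoc]
      one_mem' := by simp
      inv_mem' := by
        intro a ha
        simp only [Set.mem_ofPred_eq, Prod.fst_inv, Prod.snd_inv, map_inv] at ha ⊢
        rw [inv_mul_eq_iff_eq_mul, ← mul_assoc, ha, mul_assoc, mul_inv_cancel, mul_one] }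
  have hE : ∀ z : FreeMonoid B × FreeMonoid B, δ z ∈ E ↔ θ z.1 * y₁ = y * θ z.2 := by
    intro z
    change extend θ (toFG B z.1 * (toFG B x₀.1)⁻¹) * y =
      y * extend θ (toFG B z.2 * (toFG B x₀.2)⁻¹) ↔ _
    rw [map_mul, map_mul, map_inv, map_inv, extend_toFG, extend_toFG, extend_toFG, extend_toFG,
      hy₁]
    constructor
    · intro h
      calc θ z.1 * ((θ x₀.1)⁻¹ * y * θ x₀.2) = (θ z.1 * (θ x₀.1)⁻¹ * y) * θ x₀.2 := by group
        _ = y * θ z.2 := by rw [h]; group
    · intro h
      calc θ z.1 * (θ x₀.1)⁻¹ * y = (θ z.1 * ((θ x₀.1)⁻¹ * y * θ x₀.2)) * (θ x₀.2)⁻¹ := by group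
        _ = y * (θ z.2 * (θ x₀.2)⁻¹) := by rw [h]; group
  rw [← hE]
  have hmem : Ψ (δ x) ∈ closure t := by
    rw [htcl]
    exact subset_closure ⟨x, hx, rfl⟩
  have hle : closure t ≤ (closure (δ '' (g '' t))).map Ψ := by
    rw [closure_le]
    intro z hz
    refine ⟨δ (g z), subset_closure ⟨g z, ⟨z, hz, rfl⟩, rfl⟩, hg z hz⟩
  obtain ⟨c, hc, hcx⟩ := hle hmem
  have hcE : c ∈ E := by
    have : closure (δ '' (g '' t)) ≤ E := by
      rw [closure_le]
      rintro _ ⟨_, ⟨z, hz, rfl⟩, rfl⟩
      rw [SetLike.mem_coe, hE]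
      exact hT' _ (by right; exact ⟨z, hz, rfl⟩)
    exact this hc
  have hk : c⁻¹ * δ x ∈ E := by
    have h5 : Ψ (c⁻¹ * δ x) = 1 := by rw [map_mul, map_inv, hcx, inv_mul_cancel]
    have h6 : extend e (c⁻¹ * δ x).1 = 1 := congrArg Subtype.val (congrArg Prod.fst h5)
    have h7 : extend e (c⁻¹ * δ x).2 = 1 := congrArg Subtype.val (congrArg Prod.snd h5)
    have h8 : extend θ (c⁻¹ * δ x).1 = 1 := hker h6
    have h9 : extend θ (c⁻¹ * δ x).2 = 1 := hker h7
    change extend θ (c⁻¹ * δ x).1 * y = y * extend θ (c⁻¹ * δ x).2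
    rw [h8, h9, one_mul, mul_one]
  have : δ x = c * (c⁻¹ * δ x) := by group
  rw [this]
  exact E.mul_mem hcE hk

end Pool.Agent.MalcevCoh
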