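import Mathlib
import Pool.Agent.MalcevCoh.Univ

/-!
# Finite bases of relations

For a homomorphism `f` from a free monoid of finite rank to a group, `FinBased f` says that
finitely many relations `u = v` with `f u = f v` imply, in every group, all the relations of this
kind. We prove a criterion for `FinBased f` in terms of a finite set of states.
-/

namespace Pool.Agent.MalcevCoh

universe u v w

/-- Finitely many relations imply all the relations `u = v` with `f u = f v`. -/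
def FinBased {A : Type} {H : Type w} [Group H] (f : FreeMonoid A →* H) : Prop :=
  ∃ R : Set (FreeMonoid A × FreeMonoid A), R.Finite ∧ (∀ x ∈ R, f x.1 = f x.2) ∧
    ∀ (Q : Type) [Group Q] (θ : FreeMonoid A →* Q), (∀ x ∈ R, θ x.1 = θ x.2) →
      ∀ u v, f u = f v → θ u = θ v

theorem finBased_of_states {A B : Type} [Finite B] (i : FreeMonoid B →* FreeMonoid A)
    {G : Type v} [Group G] (hG : Group.IsVirtuallyNilpotent G) (e : FreeMonoid B →* G)
    {H : Type w} [Group H] (f : FreeMonoid A →* H)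
    (hef : ∀ u v, e u = e v → f (i u) = f (i v))
    (E : Set (FreeMonoid A)) (hE : E.Finite) (D : Set H) (hD : D.Finite) (h1D : (1 : H) ∈ D)
    (hstep : ∀ q ∈ D, ∀ u v : FreeMonoid A, f u = q * f v → ¬ (u = 1 ∧ v = 1) →
      ∃ s s' : FreeMonoid B, ∃ e₁ ∈ E, ∃ e₂ ∈ E, ∃ u' v' : FreeMonoid A,
        u = i s * e₁ * u' ∧ v = i s' * e₂ * v' ∧ u'.length + v'.length < u.length + v.length ∧
          (f (i s * e₁))⁻¹ * q * f (i s' * e₂) ∈ D) :
    FinBased f := by
  classical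
  -- live states
  let Live : H → Prop := fun q => (∃ u v, f u * q = f v) ∧ ∃ u v, f u = q * f v
  have hch : ∀ q, ∃ p : (FreeMonoid A × FreeMonoid A) × (FreeMonoid A × FreeMonoid A),
      Live q → f p.1.1 * q = f p.1.2 ∧ f p.2.1 = q * f p.2.2 := by
    intro q
    by_cases hq : Live q
    · obtain ⟨⟨u, v, h⟩, u', v', h'⟩ := hq
      exact ⟨((u, v), (u', v')), fun _ => ⟨h, h'⟩⟩
    · exact ⟨((1, 1), (1, 1)), fun h => absurd h hq⟩
  choose c hc using hch
  obtain ⟨R₀, hR₀fin, hR₀, hR₀θ⟩ := exists_finite_relations hG e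
  let T : H → H → FreeMonoid A → FreeMonoid A → Set (FreeMonoid B × FreeMonoid B) :=
    fun q q' e₁ e₂ => {x | Live q ∧ Live q' ∧ f (i x.1) * f e₁ * q' = q * f (i x.2) * f e₂}
  have hT := fun q q' e₁ e₂ => exists_finite_equations hG e (T q q' e₁ e₂)
  choose T' hT'fin hT'sub hT'θ using hT
  let g₂ : H → H → FreeMonoid A → FreeMonoid A → FreeMonoid B × FreeMonoid B →
      FreeMonoid A × FreeMonoid A := fun q q' e₁ e₂ x =>
    ((c q).1.1 * i x.1 * e₁ * (c q').2.1, (c q).1.2 * i x.2 * e₂ * (c q').2.2)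
  refine ⟨(fun x => (i x.1, i x.2)) '' R₀ ∪
    (fun q => ((c q).1.1 * (c q).2.1, (c q).1.2 * (c q).2.2)) '' {q | q ∈ D ∧ Live q} ∪
    (⋃ q ∈ D, ⋃ q' ∈ D, ⋃ e₁ ∈ E, ⋃ e₂ ∈ E, g₂ q q' e₁ e₂ '' T' q q' e₁ e₂) ∪
    {((c 1).1.1, (c 1).1.2)}, ?_, ?_, ?_⟩
  · refine (((hR₀fin.image _).union ((hD.subset ?_).image _)).union ?_).union
      (Set.finite_singleton _)
    · exact fun q hq => hq.1
    · refine hD.biUnion fun q _ => hD.biUnion fun q' _ => hE.biUnion fun e₁ _ =>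
        hE.biUnion fun e₂ _ => (hT'fin q q' e₁ e₂).image _
  · have h1 : Live 1 := ⟨⟨1, 1, by simp⟩, 1, 1, by simp⟩
    rintro x (((⟨y, hy, rfl⟩ | ⟨q, ⟨_, hq⟩, rfl⟩) | hx) | rfl)
    · exact hef _ _ (hR₀ y hy)
    · have := hc q hq
      simp only [map_mul]
      rw [this.2, ← this.1]; group
    · simp only [Set.mem_iUnion, exists_prop] at hx
      obtain ⟨q, _, q', _, e₁, _, e₂, _, y, hy, rfl⟩ := hx
      obtain ⟨hq, hq', hy⟩ := hT'sub _ _ _ _ hy
      have h2 := hc q hq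
      have h3 := hc q' hq'
      simp only [g₂, map_mul]
      rw [h3.2, ← h2.1]
      calc f (c q).1.1 * f (i y.1) * f e₁ * (q' * f (c q').2.2)
          = f (c q).1.1 * (f (i y.1) * f e₁ * q') * f (c q').2.2 := by group
        _ = _ := by rw [hy]; group
    · have := (hc 1 h1).1
      simpa using this
  intro Q _ θ hθ
  have hθ1 : ∀ x ∈ R₀, θ (i x.1) = θ (i x.2) := fun x hx =>
    hθ (i x.1, i x.2) (Or.inl (Or.inl (Or.inl ⟨x, hx, rfl⟩)))
  have hker : (extend e).ker ≤ (extend (θ.comp i)).ker := hR₀θ Q (θ.comp i) hθ1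
  -- the value of a live state
  let Θ : H → Q := fun q => (θ (c q).1.1)⁻¹ * θ (c q).1.2
  have hΘ' : ∀ q ∈ D, Live q → Θ q = θ (c q).2.1 * (θ (c q).2.2)⁻¹ := by
    intro q hq hl
    have : θ ((c q).1.1 * (c q).2.1) = θ ((c q).1.2 * (c q).2.2) :=
      hθ ((c q).1.1 * (c q).2.1, (c q).1.2 * (c q).2.2)
        (Or.inl (Or.inl (Or.inr ⟨q, ⟨hq, hl⟩, rfl⟩)))
    rw [map_mul, map_mul] at this
    change (θ (c q).1.1)⁻¹ * θ (c q).1.2 = _
    rw [inv_mul_eq_iff_eq_mul, ← mul_assoc, this, mul_assoc, mul_inv_cancel, mul_one]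
  have hΘ1 : Θ 1 = 1 := by
    have : θ (c 1).1.1 = θ (c 1).1.2 := hθ ((c 1).1.1, (c 1).1.2) (Or.inr rfl)
    change (θ (c 1).1.1)⁻¹ * θ (c 1).1.2 = 1
    rw [this, inv_mul_cancel]
  have key : ∀ n : ℕ, ∀ q ∈ D, Live q → ∀ u v : FreeMonoid A, u.length + v.length = n →
      f u = q * f v → θ u = Θ q * θ v := by
    intro n
    induction n using Nat.strong_induction_on with
    | _ n ih =>
      intro q hq hl u v hn huv
      by_cases h11 : u = 1 ∧ v = 1
      · obtain ⟨rfl, rfl⟩ := h11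
        rw [map_one, mul_one] at huv
        rw [← huv, hΘ1]; simp
      obtain ⟨s, s', e₁, he₁, e₂, he₂, u', v', hu, hv, hlen, hq'⟩ := hstep q hq u v huv h11
      set q' := (f (i s * e₁))⁻¹ * q * f (i s' * e₂) with hq'def
      have hstep' : f (i s) * f e₁ * q' = q * f (i s') * f e₂ := by
        rw [hq'def, map_mul, map_mul]; group
      have huv' : f u' = q' * f v' := by
        rw [hu, hv, map_mul f (i s * e₁) u', map_mul f (i s' * e₂) v'] at huv
        rw [hq'def]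
        calc f u' = (f (i s * e₁))⁻¹ * (f (i s * e₁) * f u') := by group
          _ = _ := by rw [huv]; group
      have hl' : Live q' := by
        refine ⟨?_, ⟨u', v', huv'⟩⟩
        obtain ⟨⟨a, b, hab⟩, _⟩ := hl
        refine ⟨a * (i s * e₁), b * (i s' * e₂), ?_⟩
        rw [map_mul, map_mul, map_mul, map_mul, ← hab]
        calc f a * (f (i s) * f e₁) * q' = f a * (f (i s) * f e₁ * q') := by group
          _ = _ := by rw [hstep']; group
      have h3 := ih (u'.length + v'.length) (by omega) q' hq' hl' u' v' rfl huv'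
      have h4 : ∀ x ∈ T' q q' e₁ e₂,
          (θ.comp i) x.1 * (θ e₁ * Θ q' * (θ e₂)⁻¹) = Θ q * (θ.comp i) x.2 := by
        intro x hx
        have h5 : θ (g₂ q q' e₁ e₂ x).1 = θ (g₂ q q' e₁ e₂ x).2 := by
          refine hθ (g₂ q q' e₁ e₂ x) (Or.inl (Or.inr ?_))
          exact Set.mem_biUnion hq (Set.mem_biUnion hq' (Set.mem_biUnion he₁
            (Set.mem_biUnion he₂ ⟨x, hx, rfl⟩)))
        simp only [g₂, map_mul] at h5
        rw [hΘ' q' hq' hl']
        change θ (i x.1) * (θ e₁ * (θ (c q').2.1 * (θ (c q').2.2)⁻¹) * (θ e₂)⁻¹) =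
          (θ (c q).1.1)⁻¹ * θ (c q).1.2 * θ (i x.2)
        calc θ (i x.1) * (θ e₁ * (θ (c q').2.1 * (θ (c q').2.2)⁻¹) * (θ e₂)⁻¹)
            = (θ (c q).1.1)⁻¹ * (θ (c q).1.1 * θ (i x.1) * θ e₁ * θ (c q').2.1) *
              (θ (c q').2.2)⁻¹ * (θ e₂)⁻¹ := by group
          _ = _ := by rw [h5]; group
      have h6 := hT'θ q q' e₁ e₂ Q (θ.comp i) hker (Θ q) (θ e₁ * Θ q' * (θ e₂)⁻¹) h4 (s, s')
        ⟨hl, hl', hstep'⟩
      change θ (i s) * (θ e₁ * Θ q' * (θ e₂)⁻¹) = Θ q * θ (i s') at h6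
      rw [hu, hv]
      simp only [map_mul]
      rw [h3]
      calc θ (i s) * θ e₁ * (Θ q' * θ v')
          = θ (i s) * (θ e₁ * Θ q' * (θ e₂)⁻¹) * (θ e₂ * θ v') := by group
        _ = _ := by rw [h6]; group
  intro u v huv
  have h1 : Live 1 := ⟨⟨1, 1, by simp⟩, 1, 1, by simp⟩
  have := key _ 1 h1D h1 u v rfl (by rw [one_mul]; exact huv)
  rw [this, hΘ1, one_mul]

end Pool.Agent.MalcevCoh
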