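import Mathlib

/-!
# Malcev presentations and Malcev coherence: the definitions

We follow the conventions of the problem: a semigroup is group-embeddable if it embeds in a group;
for a set `ρ` of pairs of words over `A`, the congruence `ρ^M` on the free semigroup `A⁺` relates
two words when they represent the same element of the group `Gp⟨A | ρ⟩`; a group-embeddable
semigroup has a finite Malcev presentation if it is isomorphic to `A⁺ / ρ^M` with `A` and `ρ`
finite; it is Malcev coherent if each finitely generated subsemigroup has a finite Malcev
presentation.
-/

namespace Pool.Agent.MalcevCoh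

universe u v

/-- A semigroup is group-embeddable if there is an injective multiplicative map from it to a
group. -/
def GroupEmbeddable (S : Type u) [Semigroup S] : Prop :=
  ∃ (H : Type u) (_ : Group H) (f : S →ₙ* H), Function.Injective f

/-- The relators `u v⁻¹`, in the free group on `A`, of a set `ρ` of pairs `(u, v)` of elements of
the free semigroup on `A`. -/
def relators {A : Type u} (ρ : Set (FreeSemigroup A × FreeSemigroup A)) : Set (FreeGroup A) :=
  {r | ∃ p ∈ ρ, r = FreeSemigroup.lift FreeGroup.of p.1 * (FreeSemigroup.lift FreeGroup.of p.2)⁻¹}

/-- The group `Gp⟨A | ρ⟩` generated by `A` subject to the relations `u = v` for `(u, v) ∈ ρ`. -/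
abbrev Gp {A : Type u} (ρ : Set (FreeSemigroup A × FreeSemigroup A)) : Type u :=
  PresentedGroup (relators ρ)

/-- The canonical map from the free semigroup on `A` to the group `Gp⟨A | ρ⟩`. -/
def toGp {A : Type u} (ρ : Set (FreeSemigroup A × FreeSemigroup A)) :
    FreeSemigroup A →ₙ* Gp ρ :=
  FreeSemigroup.lift fun a => (PresentedGroup.of a : Gp ρ)

/-- The Malcev congruence `ρ^M`: two elements of the free semigroup on `A` are related if they
represent the same element of `Gp⟨A | ρ⟩`. -/
def malcevCon {A : Type u} (ρ : Set (FreeSemigroup A × FreeSemigroup A)) :
    Con (FreeSemigroup A) where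
  r u v := toGp ρ u = toGp ρ v
  iseqv := ⟨fun _ => rfl, fun h => h.symm, fun h h' => h.trans h'⟩
  mul' := fun h h' => by rw [map_mul, map_mul, h, h']

/-- `S` has a finite Malcev presentation: it is isomorphic to `A⁺ / ρ^M` for some finite alphabet
`A = Fin n` and some finite set `ρ` of pairs of elements of the free semigroup on `A`. -/
def HasFiniteMalcevPresentation (S : Type u) [Semigroup S] : Prop :=
  ∃ (n : ℕ) (ρ : Set (FreeSemigroup (Fin n) × FreeSemigroup (Fin n))),
    ρ.Finite ∧ Nonempty ((malcevCon ρ).Quotient ≃* S)

/-- A group-embeddable semigroup is Malcev coherent if each of its finitely generated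
subsemigroups has a finite Malcev presentation. -/
def MalcevCoherent (M : Type u) [Semigroup M] : Prop :=
  GroupEmbeddable M ∧
    ∀ s : Set M, s.Finite → HasFiniteMalcevPresentation (Subsemigroup.closure s)

end Pool.Agent.MalcevCoh
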