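import Mathlib
import Pool.Agent.MalcevCoh.Basis

/-!
# A model of the free product of a free monoid and a group

Elements of the monoid free product of the free monoid on `X` and the group `G` are represented by
pairs `(l, g)` with `l` a list of elements `(h, x)` of `G × X` and `g ∈ G`, standing for the
product of the elements `h x h⁻¹`, `(h, x)` in `l`, times `g`.
-/

namespace Pool.Agent.MalcevCoh

universe u v

/-- Pairs of a list of elements of `G × X` and an element of `G`. -/
@[ext] structure Wd (X : Type u) (G : Type v) where
  l : List (G × X)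
  g : G

/-- Left multiplication of all the `G`-components of a list. -/
def sm {X : Type u} {G : Type v} [Mul G] (c : G) (l : List (G × X)) : List (G × X) :=
  l.map fun p => (c * p.1, p.2)

section sm

variable {X : Type u} {G : Type v}

@[simp] theorem sm_nil [Mul G] (c : G) : sm c ([] : List (G × X)) = [] := rfl

@[simp] theorem sm_cons [Mul G] (c : G) (p : G × X) (l : List (G × X)) :
    sm c (p :: l) = (c * p.1, p.2) :: sm c l := rfl

@[simp] theorem sm_append [Mul G] (c : G) (l l' : List (G × X)) :
    sm c (l ++ l') = sm c l ++ sm c l' := List.map_append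

@[simp] theorem sm_sm [Semigroup G] (c d : G) (l : List (G × X)) :
    sm c (sm d l) = sm (c * d) l := by
  simp [sm, Function.comp_def, mul_assoc]

@[simp] theorem sm_one [Monoid G] (l : List (G × X)) : sm 1 l = l := by
  simp [sm]

@[simp] theorem sm_eq_nil [Mul G] (c : G) (l : List (G × X)) : sm c l = [] ↔ l = [] := by
  simp [sm]

end sm

instance {X : Type u} {G : Type v} [Monoid G] : Monoid (Wd X G) where
  mul a b := ⟨a.l ++ sm a.g b.l, a.g * b.g⟩
  one := ⟨[], 1⟩
  mul_assoc := by
    rintro ⟨a, g⟩ ⟨b, h⟩ ⟨c, k⟩
    change (⟨(a ++ sm g b) ++ sm (g * h) c, g * h * k⟩ : Wd X G) =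
      ⟨a ++ sm g (b ++ sm h c), g * (h * k)⟩
    simp [mul_assoc]
  one_mul := by
    rintro ⟨a, g⟩
    change (⟨[] ++ sm 1 a, 1 * g⟩ : Wd X G) = ⟨a, g⟩
    simp
  mul_one := by
    rintro ⟨a, g⟩
    change (⟨a ++ sm g [], g * 1⟩ : Wd X G) = ⟨a, g⟩
    simp

section Wd

variable {X : Type u} {G : Type v}

@[simp] theorem Wd.mul_l [Monoid G] (a b : Wd X G) : (a * b).l = a.l ++ sm a.g b.l := rfl
@[simp] theorem Wd.mul_g [Monoid G] (a b : Wd X G) : (a * b).g = a.g * b.g := rfl
@[simp] theorem Wd.one_l [Monoid G] : (1 : Wd X G).l = [] := rfl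
@[simp] theorem Wd.one_g [Monoid G] : (1 : Wd X G).g = 1 := rfl

theorem Wd.mk_mul [Monoid G] (a b : List (G × X)) (g h : G) :
    (⟨a, g⟩ * ⟨b, h⟩ : Wd X G) = ⟨a ++ sm g b, g * h⟩ := rfl

end Wd

section Emb

variable (X : Type u) (G : Type v) [Group G]

/-- `G` acts on the free group on `G × X` by left multiplication on the first component. -/
def act : G →* MulAut (FreeGroup (G × X)) where
  toFun g := FreeGroup.freeGroupCongr ((Equiv.mulLeft g).prodCongr (Equiv.refl X))
  map_one' := by
    apply MulEquiv.toMonoidHom_injective
    apply FreeGroup.ext_hom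
    rintro ⟨h, x⟩
    simp
  map_mul' := by
    intro a b
    apply MulEquiv.toMonoidHom_injective
    apply FreeGroup.ext_hom
    rintro ⟨h, x⟩
    simp [mul_assoc]

/-- The group in which we embed. -/
abbrev BigGroup : Type (max u v) := FreeGroup (G × X) ⋊[act X G] G

/-- The positive element of the free group given by a list of generators. -/
def pos {α : Type u} (l : List α) : FreeGroup α := FreeGroup.mk (l.map fun a => (a, true))

theorem pos_append {α : Type u} (l l' : List α) : pos (l ++ l') = pos l * pos l' := by
  simp [pos]

theorem isReduced_pos {α : Type u} (l : List α) :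
    FreeGroup.IsReduced (l.map fun a => (a, true)) := by
  induction l with
  | nil => exact FreeGroup.IsReduced.nil
  | cons a l ih =>
    cases l with
    | nil => exact FreeGroup.IsReduced.singleton
    | cons b l =>
      simp only [List.map_cons] at ih ⊢
      rw [FreeGroup.isReduced_cons_cons]
      exact ⟨fun _ => rfl, ih⟩

theorem pos_injective {α : Type u} : Function.Injective (pos (α := α)) := by
  intro l l' h
  obtain ⟨L, h1, h2⟩ := FreeGroup.Red.exact.1 h
  have e1 := ((isReduced_pos l).red_iff_eq).1 h1
  have e2 := ((isReduced_pos l').red_iff_eq).1 h2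
  have h3 : (l.map fun a => (a, true)) = l'.map fun a => (a, true) := by rw [← e1, ← e2]
  exact List.map_injective_iff.2 (fun a b hab => congrArg Prod.fst hab) h3

theorem act_pos (g : G) (l : List (G × X)) : act X G g (pos l) = pos (sm g l) := by
  change FreeGroup.map _ (FreeGroup.mk _) = _
  rw [FreeGroup.map.mk]
  simp only [pos, sm, List.map_map]
  rfl

/-- The embedding of the model into a group. -/
def emb : Wd X G →* BigGroup X G where
  toFun a := ⟨pos a.l, a.g⟩
  map_one' := by
    ext
    · rfl
    · rfl
  map_mul' a b := by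
    ext
    · simp [pos_append, act_pos]
    · simp

theorem emb_injective : Function.Injective (emb X G) := by
  intro a b h
  ext1
  · exact pos_injective (congrArg SemidirectProduct.left h)
  · exact congrArg SemidirectProduct.right h

end Emb

section Coprod

variable (X : Type u) (G : Type v) [Group G]

open Monoid.Coprod

/-- The elements of `G` in the model. -/
def unitHom : G →* Wd X G where
  toFun := fun g => ⟨[], g⟩
  map_one' := rfl
  map_mul' := fun _ _ => rfl

@[simp] theorem unitHom_apply (g : G) : unitHom X G g = ⟨[], g⟩ := rfl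

/-- The homomorphism from the free product to the model. -/
def toWd : Monoid.Coprod (FreeMonoid X) G →* Wd X G :=
  Monoid.Coprod.lift (FreeMonoid.lift fun x => (⟨[(1, x)], 1⟩ : Wd X G)) (unitHom X G)

/-- The homomorphism from the model to the free product. -/
def ofWd : Wd X G →* Monoid.Coprod (FreeMonoid X) G where
  toFun a := (a.l.map fun p => (inr p.1 * inl (FreeMonoid.of p.2) * inr p.1⁻¹ :
    Monoid.Coprod (FreeMonoid X) G)).prod * inr a.g
  map_one' := by simp
  map_mul' a b := by
    have h : ∀ (c : G) (l : List (G × X)),
        ((sm c l).map fun p => (inr p.1 * inl (FreeMonoid.of p.2) * inr p.1⁻¹ :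
          Monoid.Coprod (FreeMonoid X) G)).prod * inr c =
        inr c * (l.map fun p => (inr p.1 * inl (FreeMonoid.of p.2) * inr p.1⁻¹ :
          Monoid.Coprod (FreeMonoid X) G)).prod := by
      intro c l
      induction l with
      | nil => simp
      | cons p l ih =>
        simp only [sm_cons, List.map_cons, List.prod_cons, mul_assoc] at ih ⊢
        rw [ih]
        simp only [← mul_assoc, map_mul, mul_inv_rev]
        simp only [mul_assoc]
        congr 4
        rw [← mul_assoc (inr c⁻¹), ← map_mul, inv_mul_cancel, map_one, one_mul]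
    simp only [Wd.mul_l, Wd.mul_g, List.map_append, List.prod_append, map_mul]
    rw [mul_assoc, ← mul_assoc _ (inr a.g) (inr b.g), h, mul_assoc, ← mul_assoc]

theorem ofWd_toWd (a : Monoid.Coprod (FreeMonoid X) G) : ofWd X G (toWd X G a) = a := by
  have : (ofWd X G).comp (toWd X G) = MonoidHom.id _ := by
    apply Monoid.Coprod.hom_ext
    · apply FreeMonoid.hom_eq
      intro x
      simp [toWd, ofWd]
    · ext g
      simp [toWd, ofWd]
  exact DFunLike.congr_fun this a

theorem toWd_injective : Function.Injective (toWd X G) :=
  Function.LeftInverse.injective (ofWd_toWd X G)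

end Coprod

end Pool.Agent.MalcevCoh
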