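import Mathlib
import Pool.Agent.MalcevCoh.FreeProd

/-!
# The finite set of states for words in the free product of a free monoid and a group
-/

namespace Pool.Agent.MalcevCoh

universe u v

section

variable {A : Type} {X : Type u} {G : Type v} [Group G] (pf : FreeMonoid A →* Wd X G)

/-- The list of the image of a letter. -/
def LL (a : A) : List (G × X) := (pf (FreeMonoid.of a)).l

/-- The group component of the image of a letter. -/
def KK (a : A) : G := (pf (FreeMonoid.of a)).g

theorem pf_of (a : A) : pf (FreeMonoid.of a) = ⟨LL pf a, KK pf a⟩ := rfl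

/-- The letters whose image is in `G`. -/
abbrev BB : Type := {a : A // LL pf a = []}

/-- Words in the letters of `BB` as words. -/
def ii : FreeMonoid (BB pf) →* FreeMonoid A := FreeMonoid.map Subtype.val

/-- The values in `G` of the words in the letters of `BB`. -/
def ee : FreeMonoid (BB pf) →* G := FreeMonoid.lift fun b => KK pf b.1

theorem pf_ii (w : FreeMonoid (BB pf)) : pf (ii pf w) = ⟨[], ee pf w⟩ := by
  have : pf.comp (ii pf) = (unitHom X G).comp (ee pf) := by
    apply FreeMonoid.hom_eq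
    rintro ⟨a, ha⟩
    simp only [MonoidHom.comp_apply, ii, ee, FreeMonoid.map_of, FreeMonoid.lift_eval_of,
      unitHom_apply, pf_of, ha]
  exact DFunLike.congr_fun this w

theorem decomp (u : FreeMonoid A) :
    (∃ s, u = ii pf s) ∨ ∃ s a u', LL pf a ≠ [] ∧ u = ii pf s * FreeMonoid.of a * u' := by
  induction u using FreeMonoid.inductionOn' with
  | one => exact Or.inl ⟨1, by simp⟩
  | of_mul a u ih =>
    by_cases ha : LL pf a = []
    · have hof : FreeMonoid.of a = ii pf (FreeMonoid.of ⟨a, ha⟩) := by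
        simp [ii]
      rcases ih with ⟨s, rfl⟩ | ⟨s, b, u', hb, rfl⟩
      · exact Or.inl ⟨FreeMonoid.of ⟨a, ha⟩ * s, by rw [map_mul, ← hof]⟩
      · exact Or.inr ⟨FreeMonoid.of ⟨a, ha⟩ * s, b, u', hb, by
          rw [map_mul, ← hof]; simp only [mul_assoc]⟩
    · exact Or.inr ⟨1, a, u, ha, by simp⟩

/-- The finite set of elements of `G` that occur in the states. -/
def CC : Set G :=
  {c | ∃ a b : A, ∃ p ∈ LL pf a, ∃ p' ∈ LL pf b, c = (KK pf a)⁻¹ * p.1 * p'.1⁻¹}

theorem CC_finite [Finite A] : (CC pf).Finite := by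
  have h : CC pf ⊆ ⋃ a : A, ⋃ b : A, Set.image2 (fun p p' : G × X => (KK pf a)⁻¹ * p.1 * p'.1⁻¹)
      {p | p ∈ LL pf a} {p | p ∈ LL pf b} := by
    rintro _ ⟨a, b, p, hp, p', hp', rfl⟩
    simp only [Set.mem_iUnion]
    exact ⟨a, b, p, hp, p', hp', rfl⟩
  refine Set.Finite.subset ?_ h
  refine Set.finite_iUnion fun a => Set.finite_iUnion fun b => ?_
  exact Set.Finite.image2 _ (List.finite_toSet _) (List.finite_toSet _)

/-- The finite set of positive states. -/
def MM : Set (Wd X G) :=
  {m | m = 1 ∨ ∃ b : A, ∃ P : List (G × X), P <:+ LL pf b ∧ ∃ c ∈ CC pf,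
    m = ⟨sm c P, c * KK pf b⟩}

theorem MM_finite [Finite A] : (MM pf).Finite := by
  have h : MM pf ⊆ {1} ∪ ⋃ b : A, Set.image2 (fun (P : List (G × X)) (c : G) =>
      (⟨sm c P, c * KK pf b⟩ : Wd X G)) {P | P ∈ (LL pf b).tails} (CC pf) := by
    rintro m (rfl | ⟨b, P, hP, c, hc, rfl⟩)
    · exact Or.inl rfl
    · right
      simp only [Set.mem_iUnion]
      exact ⟨b, P, (List.mem_tails P (LL pf b)).2 hP, c, hc, rfl⟩
  refine Set.Finite.subset ?_ h
  refine (Set.finite_singleton _).union (Set.finite_iUnion fun b => ?_)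
  exact Set.Finite.image2 _ (List.finite_toSet _) (CC_finite pf)

theorem one_mem_MM : (1 : Wd X G) ∈ MM pf := Or.inl rfl

theorem overlap_one {a b : A} {P P' W : List (G × X)} (hP : P <:+ LL pf a) (hP' : P' <:+ LL pf b)
    (hne : P ≠ []) (κ μ : G) (h : sm μ P' = sm κ P ++ W) :
    ∃ m ∈ MM pf, (⟨sm μ P', μ * KK pf b⟩ : Wd X G) = ⟨sm κ P, κ * KK pf a⟩ * m := by
  unfold sm at h
  rw [List.map_eq_append_iff] at h
  obtain ⟨P₁, P₂, rfl, h1, h2⟩ := h
  obtain ⟨⟨g, x⟩, P₀, rfl⟩ := List.exists_cons_of_ne_nil hne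
  cases P₁ with
  | nil => simp at h1
  | cons p P₁ =>
    obtain ⟨g', x'⟩ := p
    simp only [List.map_cons, List.cons.injEq, Prod.mk.injEq] at h1
    obtain ⟨⟨hg, hx⟩, h1⟩ := h1
    have hga : (g, x) ∈ LL pf a := hP.mem (by simp)
    have hgb : (g', x') ∈ LL pf b := hP'.mem (by simp)
    have hc : (KK pf a)⁻¹ * g * g'⁻¹ ∈ CC pf := ⟨a, b, (g, x), hga, (g', x'), hgb, rfl⟩
    have hsuf : P₂ <:+ LL pf b := (List.suffix_append _ _).trans hP'
    refine ⟨⟨sm ((KK pf a)⁻¹ * g * g'⁻¹) P₂, (KK pf a)⁻¹ * g * g'⁻¹ * KK pf b⟩,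
      Or.inr ⟨b, P₂, hsuf, _, hc, rfl⟩, ?_⟩
    have hμ : μ = κ * KK pf a * ((KK pf a)⁻¹ * g * g'⁻¹) := by
      calc μ = μ * g' * g'⁻¹ := by group
        _ = _ := by rw [hg]; group
    rw [Wd.mk_mul, sm_sm, ← hμ, ← mul_assoc, ← hμ]
    simp only [sm_append, sm_cons]
    rw [hg, hx]
    congr 2
    simp only [sm]
    rw [h1]

theorem overlap {a b : A} {P P' U V : List (G × X)} (hP : P <:+ LL pf a) (hP' : P' <:+ LL pf b)
    (hne : P ≠ []) (hne' : P' ≠ []) (κ μ : G) (h : sm κ P ++ U = sm μ P' ++ V) :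
    (∃ m ∈ MM pf, (⟨sm μ P', μ * KK pf b⟩ : Wd X G) = ⟨sm κ P, κ * KK pf a⟩ * m) ∨
      ∃ m ∈ MM pf, (⟨sm κ P, κ * KK pf a⟩ : Wd X G) = ⟨sm μ P', μ * KK pf b⟩ * m := by
  rcases List.append_eq_append_iff.1 h with ⟨W, h1, _⟩ | ⟨W, h1, _⟩
  · left; exact overlap_one pf hP hP' hne κ μ h1
  · right; exact overlap_one pf hP' hP hne' μ κ h1

theorem length_pos_of_ne {α : Type*} {u : FreeMonoid α} (h : u ≠ 1) : 0 < u.length := by
  rcases Nat.eq_zero_or_pos u.length with h0 | h0
  · exact absurd (FreeMonoid.length_eq_zero.1 h0) h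
  · exact h0

theorem step_core (m : Wd X G) (hm : m ∈ MM pf) (u v : FreeMonoid A) (huv : pf u = m * pf v)
    (hne : ¬ (u = 1 ∧ v = 1)) :
    ∃ s s' : FreeMonoid (BB pf), ∃ e₁ ∈ ({1} ∪ Set.range FreeMonoid.of : Set (FreeMonoid A)),
      ∃ e₂ ∈ ({1} ∪ Set.range FreeMonoid.of : Set (FreeMonoid A)), ∃ u' v' : FreeMonoid A,
        u = ii pf s * e₁ * u' ∧ v = ii pf s' * e₂ * v' ∧
          u'.length + v'.length < u.length + v.length ∧
          ((∃ m' ∈ MM pf, m * pf (ii pf s' * e₂) = pf (ii pf s * e₁) * m') ∨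
            ∃ m' ∈ MM pf, pf (ii pf s * e₁) = m * pf (ii pf s' * e₂) * m') := by
  have h1mem : (1 : FreeMonoid A) ∈ ({1} ∪ Set.range FreeMonoid.of : Set (FreeMonoid A)) :=
    Or.inl rfl
  have hofmem : ∀ a : A, FreeMonoid.of a ∈
      ({1} ∪ Set.range FreeMonoid.of : Set (FreeMonoid A)) := fun a => Or.inr ⟨a, rfl⟩
  have hl := congrArg Wd.l huv
  rw [Wd.mul_l] at hl
  have hpos : 0 < u.length + v.length := by
    by_contra h0
    apply hne
    constructor
    · exact FreeMonoid.length_eq_zero.1 (by omega)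
    · exact FreeMonoid.length_eq_zero.1 (by omega)
  rcases decomp pf u with ⟨s, rfl⟩ | ⟨s, a, u', ha, rfl⟩
  · -- all letters of `u` are mapped to `G`
    rw [pf_ii] at hl
    have hl' := hl.symm
    rw [List.append_eq_nil_iff, sm_eq_nil] at hl'
    rcases decomp pf v with ⟨s', rfl⟩ | ⟨s', b, v', hb, rfl⟩
    · refine ⟨s, s', 1, h1mem, 1, h1mem, 1, 1, by simp, by simp, by simpa using hpos,
        Or.inl ⟨1, one_mem_MM pf, ?_⟩⟩
      rw [mul_one, mul_one, mul_one]
      exact huv.symm
    · exfalso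
      apply hb
      have := hl'.2
      rw [map_mul, map_mul, pf_ii, pf_of] at this
      simp at this
      exact this.1
  · have hpfu : pf (ii pf s * FreeMonoid.of a) = ⟨sm (ee pf s) (LL pf a), ee pf s * KK pf a⟩ := by
      rw [map_mul, pf_ii, pf_of, Wd.mk_mul, List.nil_append]
    have hlenu : u'.length < (ii pf s * FreeMonoid.of a * u').length := by
      rw [FreeMonoid.length_mul, FreeMonoid.length_mul, FreeMonoid.length_of]
      omega
    rw [map_mul, hpfu, Wd.mul_l] at hl
    by_cases hml : m.l = []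
    · -- a tie: both words continue with a letter not mapped to `G`
      rcases decomp pf v with ⟨s', rfl⟩ | ⟨s', b, v', hb, rfl⟩
      · exfalso
        apply ha
        rw [hml, pf_ii] at hl
        simp at hl
        exact hl.1
      · have hpfv : m * pf (ii pf s' * FreeMonoid.of b) =
            ⟨sm (m.g * ee pf s') (LL pf b), m.g * ee pf s' * KK pf b⟩ := by
          rw [map_mul, pf_ii, pf_of]
          ext1
          · simp [hml]
          · simp [mul_assoc]
        have hl2 : sm (ee pf s) (LL pf a) ++ sm (ee pf s * KK pf a) (pf u').l =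
            sm (m.g * ee pf s') (LL pf b) ++ sm (m.g * ee pf s' * KK pf b) (pf v').l := by
          have h3 := congrArg Wd.l huv
          rw [map_mul, hpfu, Wd.mul_l, map_mul, ← mul_assoc m, hpfv, Wd.mul_l] at h3
          exact h3
        have := overlap pf (List.suffix_refl (LL pf a)) (List.suffix_refl (LL pf b)) ha hb
          (ee pf s) (m.g * ee pf s') hl2
        refine ⟨s, s', FreeMonoid.of a, hofmem a, FreeMonoid.of b, hofmem b, u', v', rfl, rfl,
          ?_, ?_⟩
        · have hlenv : v'.length < (ii pf s' * FreeMonoid.of b * v').length := by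
            rw [FreeMonoid.length_mul, FreeMonoid.length_mul, FreeMonoid.length_of]
            omega
          omega
        · rw [hpfv, hpfu]
          exact this
    · -- an overhang
      rcases hm with rfl | ⟨b, P, hP, c, hc, rfl⟩
      · simp at hml
      · have hPne : P ≠ [] := by
          intro h0
          apply hml
          simp [h0]
        have := overlap pf (List.suffix_refl (LL pf a)) hP ha hPne (ee pf s) c hl
        refine ⟨s, 1, FreeMonoid.of a, hofmem a, 1, h1mem, u', v, rfl, by simp, by omega, ?_⟩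
        rw [hpfu, map_one, mul_one, map_one, mul_one]
        exact this

theorem finBased_emb [Finite A] (hG : Group.IsVirtuallyNilpotent G) :
    FinBased ((emb X G).comp pf) := by
  have hinj := emb_injective X G
  refine finBased_of_states (ii pf) hG (ee pf) ((emb X G).comp pf) ?_
    ({1} ∪ Set.range FreeMonoid.of) ((Set.finite_singleton _).union (Set.finite_range _))
    {q | ∃ m ∈ MM pf, q = emb X G m ∨ q = (emb X G m)⁻¹} ?_ ?_ ?_
  · intro u v huv
    simp only [MonoidHom.comp_apply, pf_ii, huv]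
  · have : {q | ∃ m ∈ MM pf, q = emb X G m ∨ q = (emb X G m)⁻¹} ⊆
        (emb X G) '' MM pf ∪ (fun m => (emb X G m)⁻¹) '' MM pf := by
      rintro q ⟨m, hm, rfl | rfl⟩
      · exact Or.inl ⟨m, hm, rfl⟩
      · exact Or.inr ⟨m, hm, rfl⟩
    exact (((MM_finite pf).image _).union ((MM_finite pf).image _)).subset this
  · exact ⟨1, one_mem_MM pf, Or.inl (map_one _).symm⟩
  · rintro q ⟨m, hm, rfl | rfl⟩ u v huv hne
    · have huv' : pf u = m * pf v := by
        apply hinj
        rw [map_mul]
        exact huv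
      obtain ⟨s, s', e₁, he₁, e₂, he₂, u', v', hu, hv, hlen, hstep⟩ :=
        step_core pf m hm u v huv' hne
      refine ⟨s, s', e₁, he₁, e₂, he₂, u', v', hu, hv, hlen, ?_⟩
      rcases hstep with ⟨m', hm', h⟩ | ⟨m', hm', h⟩
      · refine ⟨m', hm', Or.inl ?_⟩
        have h2 := congrArg (emb X G) h
        rw [map_mul, map_mul (emb X G)] at h2
        simp only [MonoidHom.comp_apply]
        rw [mul_assoc, inv_mul_eq_iff_eq_mul]
        exact h2
      · refine ⟨m', hm', Or.inr ?_⟩
        have h2 := congrArg (emb X G) h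
        rw [map_mul (emb X G), map_mul (emb X G)] at h2
        simp only [MonoidHom.comp_apply]
        rw [h2]; group
    · have huv' : pf v = m * pf u := by
        apply hinj
        rw [map_mul]
        have h3 : (emb X G) (pf u) = ((emb X G) m)⁻¹ * (emb X G) (pf v) := huv
        rw [h3]; group
      obtain ⟨s, s', e₁, he₁, e₂, he₂, u', v', hu, hv, hlen, hstep⟩ :=
        step_core pf m hm v u huv' (fun h => hne ⟨h.2, h.1⟩)
      refine ⟨s', s, e₂, he₂, e₁, he₁, v', u', hv, hu, by omega, ?_⟩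
      rcases hstep with ⟨m', hm', h⟩ | ⟨m', hm', h⟩
      · refine ⟨m', hm', Or.inr ?_⟩
        have h2 := congrArg (emb X G) h
        rw [map_mul, map_mul (emb X G)] at h2
        simp only [MonoidHom.comp_apply]
        have h4 : (emb X G) (pf (ii pf s' * e₂)) =
            ((emb X G) m)⁻¹ * ((emb X G) (pf (ii pf s * e₁)) * (emb X G) m') := by
          rw [← h2]; group
        rw [h4]; group
      · refine ⟨m', hm', Or.inl ?_⟩
        have h2 := congrArg (emb X G) h
        rw [map_mul (emb X G), map_mul (emb X G)] at h2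
        simp only [MonoidHom.comp_apply]
        rw [h2]; group

end

end Pool.Agent.MalcevCoh
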