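import Mathlib
import Pool.Agent.MalcevCoh.Defs
import Pool.Agent.MalcevCoh.Steps

/-!
# From finite bases of relations to finite Malcev presentations
-/

namespace Pool.Agent.MalcevCoh

universe u v w

open FreeSemigroup

theorem toGp_eq_mk {A : Type u} (ρ : Set (FreeSemigroup A × FreeSemigroup A))
    (u : FreeSemigroup A) :
    toGp ρ u = PresentedGroup.mk (relators ρ) (FreeSemigroup.lift FreeGroup.of u) := by
  have : toGp ρ = ((PresentedGroup.mk (relators ρ) : FreeGroup A →* Gp ρ) :
      FreeGroup A →ₙ* Gp ρ).comp (FreeSemigroup.lift FreeGroup.of) := by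
    apply FreeSemigroup.hom_ext
    funext a
    simp only [toGp, Function.comp_apply, FreeSemigroup.lift_of, MulHom.comp_apply]
    rfl
  rw [this]; rfl

theorem toGp_eq_of_mem {A : Type u} {ρ : Set (FreeSemigroup A × FreeSemigroup A)}
    {u v : FreeSemigroup A} (h : (u, v) ∈ ρ) : toGp ρ u = toGp ρ v := by
  rw [toGp_eq_mk, toGp_eq_mk, ← mul_inv_eq_one, ← map_inv, ← map_mul]
  apply PresentedGroup.one_of_mem
  exact ⟨(u, v), h, rfl⟩

/-- A map to a group that respects the pairs in `ρ` factors through `Gp ρ`. -/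
theorem exists_gp_hom {A : Type u} {H : Type w} [Group H]
    (ρ : Set (FreeSemigroup A × FreeSemigroup A)) (g : A → H)
    (hg : ∀ p ∈ ρ, FreeSemigroup.lift g p.1 = FreeSemigroup.lift g p.2) :
    ∃ φ : Gp ρ →* H, ∀ u, φ (toGp ρ u) = FreeSemigroup.lift g u := by
  have h1 : ∀ u : FreeSemigroup A, FreeGroup.lift g (FreeSemigroup.lift FreeGroup.of u) =
      FreeSemigroup.lift g u := by
    intro u
    have : ((FreeGroup.lift g : FreeGroup A →* H) : FreeGroup A →ₙ* H).comp
        (FreeSemigroup.lift FreeGroup.of) = FreeSemigroup.lift g := by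
      apply FreeSemigroup.hom_ext
      funext a
      simp
    rw [← this]; rfl
  have h2 : ∀ r ∈ relators ρ, FreeGroup.lift g r = 1 := by
    rintro r ⟨p, hp, rfl⟩
    rw [map_mul, map_inv, h1, h1, hg p hp, mul_inv_cancel]
  refine ⟨PresentedGroup.toGroup h2, fun u => ?_⟩
  rw [toGp_eq_mk, ← h1]
  rfl

theorem lift_toFreeMonoid {A : Type u} {M : Type v} [Monoid M] (g : A → M)
    (u : FreeSemigroup A) : FreeMonoid.lift g (toFreeMonoid u) = FreeSemigroup.lift g u := by
  have : ((FreeMonoid.lift g : FreeMonoid A →* M) : FreeMonoid A →ₙ* M).comp toFreeMonoid =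
      FreeSemigroup.lift g := by
    apply FreeSemigroup.hom_ext
    funext a
    simp
  rw [← this]; rfl

/-- The semigroup generated by a finite set `s` is the set of values of the words in an
enumeration of `s`. -/
theorem exists_enum {M : Type u} [Semigroup M] (s : Set M) (hs : s.Finite) :
    ∃ (n : ℕ) (g : Fin n → M), Set.range g = s ∧
      ∀ x, x ∈ Subsemigroup.closure s ↔ ∃ w, FreeSemigroup.lift g w = x := by
  have : Finite s := hs
  obtain ⟨n, ⟨e⟩⟩ := Finite.exists_equiv_fin s
  refine ⟨n, fun k => (e.symm k).1, ?_, ?_⟩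
  · ext x
    constructor
    · rintro ⟨k, rfl⟩
      exact (e.symm k).2
    · intro hx
      exact ⟨e ⟨x, hx⟩, by simp⟩
  · intro x
    constructor
    · intro hx
      induction hx using Subsemigroup.closure_induction with
      | mem x hx => exact ⟨FreeSemigroup.of (e ⟨x, hx⟩), by simp⟩
      | mul x y _ _ hx hy =>
        obtain ⟨w, rfl⟩ := hx
        obtain ⟨w', rfl⟩ := hy
        exact ⟨w * w', by simp⟩
    · rintro ⟨w, rfl⟩
      induction w using FreeSemigroup.recOnMul with
      | ih1 k =>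
        rw [FreeSemigroup.lift_of]
        exact Subsemigroup.subset_closure (e.symm k).2
      | ih2 k w h1 h2 =>
        rw [map_mul]
        exact Subsemigroup.mul_mem _ h1 h2

theorem hasFMP_of_relations {M : Type u} [Semigroup M] {H : Type w} [Group H] (j : M →ₙ* H)
    (hj : Function.Injective j) (T : Subsemigroup M) {n : ℕ} (g : Fin n → M)
    (hT : ∀ x, x ∈ T ↔ ∃ w, FreeSemigroup.lift g w = x)
    (ρ : Set (FreeSemigroup (Fin n) × FreeSemigroup (Fin n))) (hρ : ρ.Finite)
    (h1 : ∀ p ∈ ρ, FreeSemigroup.lift g p.1 = FreeSemigroup.lift g p.2)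
    (h2 : ∀ u v, FreeSemigroup.lift g u = FreeSemigroup.lift g v → toGp ρ u = toGp ρ v) :
    HasFiniteMalcevPresentation T := by
  have hjg : ∀ u, FreeSemigroup.lift (fun k => j (g k)) u = j (FreeSemigroup.lift g u) := by
    intro u
    have : FreeSemigroup.lift (fun k => j (g k)) = j.comp (FreeSemigroup.lift g) := by
      apply FreeSemigroup.hom_ext
      funext a
      simp
    rw [this]; rfl
  obtain ⟨φ, hφ⟩ := exists_gp_hom ρ (fun k => j (g k)) (fun p hp => by
    rw [hjg, hjg, h1 p hp])
  have h3 : ∀ u v, toGp ρ u = toGp ρ v → FreeSemigroup.lift g u = FreeSemigroup.lift g v := by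
    intro u v huv
    apply hj
    rw [← hjg, ← hjg, ← hφ, ← hφ, huv]
  let F : (malcevCon ρ).Quotient →ₙ* T :=
    { toFun := fun x => Quotient.lift (s := (malcevCon ρ).toSetoid)
        (fun u => (⟨FreeSemigroup.lift g u, (hT _).2 ⟨u, rfl⟩⟩ : T))
        (fun u v huv => Subtype.ext (h3 u v huv)) x
      map_mul' := by
        rintro ⟨u⟩ ⟨v⟩
        exact Subtype.ext (map_mul (FreeSemigroup.lift g) u v) }
  refine ⟨n, ρ, hρ, ⟨MulEquiv.ofBijective F ⟨?_, ?_⟩⟩⟩
  · rintro ⟨u⟩ ⟨v⟩ huv
    exact Quotient.sound (s := (malcevCon ρ).toSetoid) (h2 u v (congrArg Subtype.val huv))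
  · rintro ⟨x, hx⟩
    obtain ⟨w, rfl⟩ := (hT x).1 hx
    exact ⟨Quotient.mk (malcevCon ρ).toSetoid w, rfl⟩

theorem hasFMP_of_finBased {M : Type u} [Monoid M] {H : Type w} [Group H] (j : M →* H)
    (hj : Function.Injective j)
    (h : ∀ (n : ℕ) (f : FreeMonoid (Fin n) →* M), FinBased (j.comp f))
    (s : Set M) (hs : s.Finite) : HasFiniteMalcevPresentation (Subsemigroup.closure s) := by
  obtain ⟨n, g, _, hT⟩ := exists_enum s hs
  obtain ⟨R, hRfin, hR, hRθ⟩ := h n (FreeMonoid.lift g)
  have hfF : ∀ u : FreeSemigroup (Fin n), FreeMonoid.lift g (toFreeMonoid u) =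
      FreeSemigroup.lift g u := lift_toFreeMonoid g
  set ρ : Set (FreeSemigroup (Fin n) × FreeSemigroup (Fin n)) :=
    {p | (toFreeMonoid p.1, toFreeMonoid p.2) ∈ R} ∪
      (fun u => (u * u, u)) '' {u | (toFreeMonoid u, 1) ∈ R ∨ (1, toFreeMonoid u) ∈ R} with hρ
  have hinj := @FreeSemigroup.toFreeMonoid_injective (Fin n)
  have hρfin : ρ.Finite := by
    refine Set.Finite.union ?_ (Set.Finite.image _ (Set.Finite.union ?_ ?_))
    · exact Set.Finite.preimage (f := fun p : FreeSemigroup (Fin n) × FreeSemigroup (Fin n) =>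
        (toFreeMonoid p.1, toFreeMonoid p.2)) (fun p _ q _ hpq => Prod.ext
          (hinj (congrArg Prod.fst hpq)) (hinj (congrArg Prod.snd hpq))) hRfin
    · exact Set.Finite.preimage (f := fun u : FreeSemigroup (Fin n) =>
        (toFreeMonoid u, (1 : FreeMonoid (Fin n)))) (fun p _ q _ hpq =>
          hinj (congrArg Prod.fst hpq)) hRfin
    · exact Set.Finite.preimage (f := fun u : FreeSemigroup (Fin n) =>
        ((1 : FreeMonoid (Fin n)), toFreeMonoid u)) (fun p _ q _ hpq =>
          hinj (congrArg Prod.snd hpq)) hRfin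
  have hone : ∀ u : FreeSemigroup (Fin n),
      ((toFreeMonoid u, (1 : FreeMonoid (Fin n))) ∈ R ∨
        ((1 : FreeMonoid (Fin n)), toFreeMonoid u) ∈ R) → FreeSemigroup.lift g u = 1 := by
    intro u hu
    rw [← hfF]
    apply hj
    rcases hu with hu | hu
    · have := hR _ hu
      simpa using this
    · have := hR _ hu
      simpa using this.symm
  refine hasFMP_of_relations (j : M →ₙ* H) hj (Subsemigroup.closure s) g hT ρ hρfin ?_ ?_
  · rintro p (hp | ⟨u, hu, rfl⟩)
    · have := hR _ hp
      have h2 := hj this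
      simpa only [hfF] using h2
    · have := hone u hu
      simp [this]
  · intro u v huv
    let θ : FreeMonoid (Fin n) →* Gp ρ := FreeMonoid.lift fun a => (PresentedGroup.of a : Gp ρ)
    have hθ : ∀ u, θ (toFreeMonoid u) = toGp ρ u := fun u => lift_toFreeMonoid _ u
    have hidem : ∀ w : FreeSemigroup (Fin n),
        ((toFreeMonoid w, (1 : FreeMonoid (Fin n))) ∈ R ∨
          ((1 : FreeMonoid (Fin n)), toFreeMonoid w) ∈ R) → toGp ρ w = 1 := by
      intro w hw
      have h3 : toGp ρ (w * w) = toGp ρ w := toGp_eq_of_mem (Or.inr ⟨w, hw, rfl⟩)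
      rw [map_mul] at h3
      exact mul_eq_left.1 h3
    have h4 : ∀ x ∈ R, θ x.1 = θ x.2 := by
      rintro ⟨a, b⟩ hx
      rcases FreeSemigroup.eq_one_or_toFreeMonoid a with rfl | ⟨a', rfl⟩ <;>
      rcases FreeSemigroup.eq_one_or_toFreeMonoid b with rfl | ⟨b', rfl⟩
      · rfl
      · change θ 1 = θ (toFreeMonoid b')
        rw [map_one, hθ, hidem b' (Or.inr hx)]
      · change θ (toFreeMonoid a') = θ 1
        rw [map_one, hθ, hidem a' (Or.inl hx)]
      · change θ (toFreeMonoid a') = θ (toFreeMonoid b')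
        rw [hθ, hθ]
        exact toGp_eq_of_mem (Or.inl hx)
    rw [← hθ, ← hθ]
    apply hRθ (Gp ρ) θ h4
    change j (FreeMonoid.lift g (toFreeMonoid u)) = j (FreeMonoid.lift g (toFreeMonoid v))
    rw [hfF, hfF, huv]

/-- The free product of a free monoid and a virtually nilpotent group is Malcev coherent. -/
theorem malcevCoherent_coprod (X : Type u) (G : Type v) [Group G]
    (hG : Group.IsVirtuallyNilpotent G) :
    MalcevCoherent (Monoid.Coprod (FreeMonoid X) G) := by
  have hinj : Function.Injective ((emb X G).comp (toWd X G)) :=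
    (emb_injective X G).comp (toWd_injective X G)
  constructor
  · exact ⟨BigGroup X G, inferInstance, ((emb X G).comp (toWd X G) : _ →* _), hinj⟩
  · intro s hs
    apply hasFMP_of_finBased ((emb X G).comp (toWd X G)) hinj ?_ s hs
    intro n f
    exact finBased_emb ((toWd X G).comp f) hG

end Pool.Agent.MalcevCoh
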