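import Mathlib
import Pool.Agent.MalcevCoh.Criterion

/-!
# Normal forms in the free product of a free monoid and a group-embeddable monoid
-/

namespace Pool.Agent.MalcevCoh

universe u v w

open Monoid.Coprod

section

variable {X : Type u} {M : Type v} [Monoid M]

/-- The element `m₀ x₁ m₁ x₂ m₂ ...` of the free product, for `l = [(x₁, m₁), (x₂, m₂), ...]`. -/
def EE (m₀ : M) (l : List (X × M)) : Monoid.Coprod (FreeMonoid X) M :=
  inr m₀ * (l.map fun p => (inl (FreeMonoid.of p.1) * inr p.2 :
    Monoid.Coprod (FreeMonoid X) M)).prod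

theorem EE_nil (m : M) : (EE m [] : Monoid.Coprod (FreeMonoid X) M) = inr m := by
  simp [EE]

theorem EE_cons (m m₁ : M) (x : X) (l : List (X × M)) :
    EE m ((x, m₁) :: l) = inr m * inl (FreeMonoid.of x) * EE m₁ l := by
  simp [EE, mul_assoc]

theorem inr_mul_EE (m m₀ : M) (l : List (X × M)) : inr m * EE m₀ l = EE (m * m₀) l := by
  simp [EE, mul_assoc]

theorem EE_surjective (a : Monoid.Coprod (FreeMonoid X) M) : ∃ m l, EE m l = a := by
  induction a using Monoid.Coprod.induction_on' with
  | one => exact ⟨1, [], by simp [EE]⟩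
  | inl_mul w a ih =>
    obtain ⟨m, l, rfl⟩ := ih
    induction w using FreeMonoid.inductionOn' with
    | one => exact ⟨m, l, by simp⟩
    | of_mul x w ih =>
      obtain ⟨m', l', h⟩ := ih
      refine ⟨1, (x, m') :: l', ?_⟩
      rw [EE_cons, h]
      simp [mul_assoc]
  | inr_mul m a ih =>
    obtain ⟨m', l, rfl⟩ := ih
    exact ⟨m * m', l, (inr_mul_EE m m' l).symm⟩

/-- The homomorphism from the free product to the model over a group. -/
def muHom {G : Type w} [Group G] (j : M →* G) : Monoid.Coprod (FreeMonoid X) M →* Wd X G :=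
  Monoid.Coprod.lift (FreeMonoid.lift fun x => (⟨[(1, x)], 1⟩ : Wd X G)) ((unitHom X G).comp j)

theorem muHom_EE_nil {G : Type w} [Group G] (j : M →* G) (m : M) :
    muHom j (EE m [] : Monoid.Coprod (FreeMonoid X) M) = ⟨[], j m⟩ := by
  rw [EE_nil]
  simp [muHom]

theorem muHom_EE_cons {G : Type w} [Group G] (j : M →* G) (m m₁ : M) (x : X)
    (l : List (X × M)) : muHom j (EE m ((x, m₁) :: l)) =
      ⟨(j m, x) :: sm (j m) (muHom j (EE m₁ l)).l, j m * (muHom j (EE m₁ l)).g⟩ := by
  rw [EE_cons, map_mul, map_mul]
  ext1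
  · simp [muHom]
  · simp [muHom]

theorem sm_injective {G : Type w} [Group G] (c : G) :
    Function.Injective (sm c : List (G × X) → List (G × X)) := by
  intro a b h
  have := congrArg (sm c⁻¹) h
  simpa using this

theorem muHom_EE_inj {G : Type w} [Group G] (j : M →* G) (hj : Function.Injective j) :
    ∀ (l l' : List (X × M)) (m m' : M), muHom j (EE m l) = muHom j (EE m' l') →
      m = m' ∧ l = l' := by
  intro l
  induction l with
  | nil =>
    intro l' m m' h
    cases l' with
    | nil =>
      rw [muHom_EE_nil, muHom_EE_nil] at h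
      exact ⟨hj (congrArg Wd.g h), rfl⟩
    | cons p l' =>
      obtain ⟨x, m₁⟩ := p
      rw [muHom_EE_nil, muHom_EE_cons] at h
      have := congrArg Wd.l h
      simp at this
  | cons p l ih =>
    intro l' m m' h
    obtain ⟨x, m₁⟩ := p
    cases l' with
    | nil =>
      rw [muHom_EE_nil, muHom_EE_cons] at h
      have := congrArg Wd.l h
      simp at this
    | cons p' l' =>
      obtain ⟨x', m₁'⟩ := p'
      rw [muHom_EE_cons, muHom_EE_cons] at h
      have h1 := congrArg Wd.l h
      have h2 := congrArg Wd.g h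
      simp only [List.cons.injEq, Prod.mk.injEq] at h1 h2
      obtain ⟨⟨h3, rfl⟩, h4⟩ := h1
      obtain rfl := hj h3
      have h5 := sm_injective _ h4
      have h6 := mul_left_cancel h2
      obtain ⟨rfl, rfl⟩ := ih l' m₁ m₁' (by ext1 <;> assumption)
      exact ⟨rfl, rfl⟩

theorem muHom_injective {G : Type w} [Group G] (j : M →* G) (hj : Function.Injective j) :
    Function.Injective (muHom j : Monoid.Coprod (FreeMonoid X) M →* Wd X G) := by
  intro a b h
  obtain ⟨m, l, rfl⟩ := EE_surjective a
  obtain ⟨m', l', rfl⟩ := EE_surjective b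
  obtain ⟨rfl, rfl⟩ := muHom_EE_inj j hj l l' m m' h
  rfl

theorem EE_inj {G : Type w} [Group G] (j : M →* G) (hj : Function.Injective j)
    {l l' : List (X × M)} {m m' : M} (h : EE m l = EE m' l') : m = m' ∧ l = l' :=
  muHom_EE_inj j hj l l' m m' (by rw [h])

end

theorem groupEmbeddable_coprod (X : Type u) (M : Type v) [Monoid M] {G : Type v} [Group G]
    (j : M →* G) (hj : Function.Injective j) :
    GroupEmbeddable (Monoid.Coprod (FreeMonoid X) M) :=
  ⟨BigGroup X G, inferInstance, ((emb X G).comp (muHom j) : _ →* _),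
    (emb_injective X G).comp (muHom_injective j hj)⟩

/-- A finite Malcev presentation of `T` gives one with respect to any finite generating family:
finitely many relations between the generators imply, in every group, all of them. -/
theorem HasFiniteMalcevPresentation.relations {M : Type u} [Semigroup M] (T : Subsemigroup M)
    (h : HasFiniteMalcevPresentation T) {A : Type} [Finite A] (g : A → M)
    (hT : ∀ x, x ∈ T ↔ ∃ w, FreeSemigroup.lift g w = x) :
    ∃ ρ : Set (FreeSemigroup A × FreeSemigroup A), ρ.Finite ∧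
      (∀ p ∈ ρ, FreeSemigroup.lift g p.1 = FreeSemigroup.lift g p.2) ∧
      ∀ (H : Type) [Group H] (θ : A → H),
        (∀ p ∈ ρ, FreeSemigroup.lift θ p.1 = FreeSemigroup.lift θ p.2) →
        ∀ u v, FreeSemigroup.lift g u = FreeSemigroup.lift g v →
          FreeSemigroup.lift θ u = FreeSemigroup.lift θ v := by
  obtain ⟨n, τ, hτ, ⟨Φ⟩⟩ := h
  -- the value in `T` of a word over `Fin n`
  let Q : FreeSemigroup (Fin n) →ₙ* (malcevCon τ).Quotient :=
    { toFun := fun w => Quotient.mk (malcevCon τ).toSetoid w
      map_mul' := fun _ _ => rfl }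
  let val : FreeSemigroup (Fin n) →ₙ* M :=
    (MulMemClass.subtype T).comp ((Φ : (malcevCon τ).Quotient →ₙ* T).comp Q)
  have hval_mem : ∀ y, val y ∈ T := fun y => (Φ (Q y)).2
  have hval_surj : ∀ x ∈ T, ∃ y, val y = x := by
    intro x hx
    obtain ⟨z, hz⟩ := Φ.surjective ⟨x, hx⟩
    obtain ⟨y, rfl⟩ := Quotient.exists_rep z
    exact ⟨y, congrArg Subtype.val hz⟩
  have hval_inj : ∀ y y', val y = val y' → toGp τ y = toGp τ y' := by
    intro y y' hyy'
    have h1 : Φ (Q y) = Φ (Q y') := Subtype.ext hyy'
    have h2 := Φ.injective h1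
    exact Quotient.exact h2
  have hW : ∀ k : Fin n, ∃ w : FreeSemigroup A, FreeSemigroup.lift g w = val (FreeSemigroup.of k) :=
    fun k => (hT _).1 (hval_mem _)
  choose w hw using hW
  have hV : ∀ a : A, ∃ y : FreeSemigroup (Fin n), val y = g a := by
    intro a
    apply hval_surj
    rw [hT]
    exact ⟨FreeSemigroup.of a, by simp⟩
  choose y hy using hV
  have hWval : ∀ z, FreeSemigroup.lift g (FreeSemigroup.lift w z) = val z := by
    intro z
    have : (FreeSemigroup.lift g).comp (FreeSemigroup.lift w) = val := by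
      apply FreeSemigroup.hom_ext
      funext k
      simp [hw]
    rw [← this]; rfl
  have hVval : ∀ z, val (FreeSemigroup.lift y z) = FreeSemigroup.lift g z := by
    intro z
    have : val.comp (FreeSemigroup.lift y) = FreeSemigroup.lift g := by
      apply FreeSemigroup.hom_ext
      funext k
      simp [hy]
    rw [← this]; rfl
  refine ⟨(fun p => (FreeSemigroup.lift w p.1, FreeSemigroup.lift w p.2)) '' τ ∪
    Set.range fun a => (FreeSemigroup.of a, FreeSemigroup.lift w (y a)),
    (hτ.image _).union (Set.finite_range _), ?_, ?_⟩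
  · rintro p (⟨p, hp, rfl⟩ | ⟨a, rfl⟩)
    · change FreeSemigroup.lift g (FreeSemigroup.lift w p.1) =
        FreeSemigroup.lift g (FreeSemigroup.lift w p.2)
      rw [hWval, hWval]
      have h3 : Q p.1 = Q p.2 :=
        Quotient.sound (s := (malcevCon τ).toSetoid)
          (show toGp τ p.1 = toGp τ p.2 from toGp_eq_of_mem hp)
      exact congrArg (fun z => (Φ z : M)) h3
    · change FreeSemigroup.lift g (FreeSemigroup.of a) =
        FreeSemigroup.lift g (FreeSemigroup.lift w (y a))
      rw [hWval, hy]; simp
  · intro H _ θ hθ u v huv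
    obtain ⟨φ, hφ⟩ := exists_gp_hom τ (fun k => FreeSemigroup.lift θ (w k)) (by
      intro p hp
      have h4 := hθ (FreeSemigroup.lift w p.1, FreeSemigroup.lift w p.2)
        (Or.inl ⟨p, hp, rfl⟩)
      have h5 : ∀ z, FreeSemigroup.lift (fun k => FreeSemigroup.lift θ (w k)) z =
          FreeSemigroup.lift θ (FreeSemigroup.lift w z) := by
        intro z
        have : FreeSemigroup.lift (fun k => FreeSemigroup.lift θ (w k)) =
            (FreeSemigroup.lift θ).comp (FreeSemigroup.lift w) := by
          apply FreeSemigroup.hom_ext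
          funext k
          simp
        rw [this]; rfl
      rw [h5, h5]
      exact h4)
    have h5 : ∀ z, FreeSemigroup.lift (fun k => FreeSemigroup.lift θ (w k)) z =
        FreeSemigroup.lift θ (FreeSemigroup.lift w z) := by
      intro z
      have : FreeSemigroup.lift (fun k => FreeSemigroup.lift θ (w k)) =
          (FreeSemigroup.lift θ).comp (FreeSemigroup.lift w) := by
        apply FreeSemigroup.hom_ext
        funext k
        simp
      rw [this]; rfl
    have h6 : ∀ z, FreeSemigroup.lift θ z =
        FreeSemigroup.lift θ (FreeSemigroup.lift w (FreeSemigroup.lift y z)) := by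
      intro z
      have : FreeSemigroup.lift θ =
          (FreeSemigroup.lift θ).comp ((FreeSemigroup.lift w).comp (FreeSemigroup.lift y)) := by
        apply FreeSemigroup.hom_ext
        funext a
        have := hθ (FreeSemigroup.of a, FreeSemigroup.lift w (y a)) (Or.inr ⟨a, rfl⟩)
        simpa using this
      exact DFunLike.congr_fun this z
    rw [h6 u, h6 v, ← h5, ← h5, ← hφ, ← hφ]
    congr 1
    apply hval_inj
    rw [hVval, hVval, huv]

end Pool.Agent.MalcevCoh
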