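import Mathlib
import Pool.Agent.MalcevCoh.Criterion

/-!
# Direct products with the integers

If the relations `f u = f v` have a finite basis, then so have the relations `f u = f v`,
`n u = n v`, where `n` is a homomorphism to the integers. Consequently the direct product of a
free monoid and the monoid of natural numbers is Malcev coherent.
-/

namespace Pool.Agent.MalcevCoh

universe u v w

theorem FinBased.congr {A : Type} {H : Type v} {H' : Type w} [Group H] [Group H']
    {f : FreeMonoid A →* H} {f' : FreeMonoid A →* H'} (h : ∀ u v, f u = f v ↔ f' u = f' v)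
    (hf : FinBased f) : FinBased f' := by
  obtain ⟨R, hR, h1, h2⟩ := hf
  exact ⟨R, hR, fun x hx => (h _ _).1 (h1 x hx),
    fun Q _ θ hθ u v huv => h2 Q θ hθ u v ((h _ _).2 huv)⟩

theorem FinBased.prod_int {A : Type} [Finite A] {H : Type v} [Group H] {f : FreeMonoid A →* H}
    (hf : FinBased f) (n : FreeMonoid A →* Multiplicative ℤ) : FinBased (f.prod n) := by
  obtain ⟨R, hRfin, hR, hRθ⟩ := hf
  have hN : ∃ m : ℤ, (∃ p p', f p = f p' ∧ (n p).toAdd - (n p').toAdd = m) ∧
      ∀ u v, f u = f v → ∃ k : ℤ, (n u).toAdd - (n v).toAdd = k * m := by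
    let Λ : AddSubgroup ℤ :=
      { carrier := {k | ∃ p p', f p = f p' ∧ (n p).toAdd - (n p').toAdd = k}
        zero_mem' := ⟨1, 1, rfl, by simp⟩
        add_mem' := by
          rintro a b ⟨p, p', h1, rfl⟩ ⟨r, r', h2, rfl⟩
          refine ⟨p * r, p' * r', by rw [map_mul, map_mul, h1, h2], ?_⟩
          simp only [map_mul, toAdd_mul]; ring
        neg_mem' := by
          rintro a ⟨p, p', h1, rfl⟩
          exact ⟨p', p, h1.symm, by ring⟩ }
    obtain ⟨m, hm⟩ := Int.subgroup_cyclic Λ
    have hmem : m ∈ Λ := by rw [hm]; exact AddSubgroup.subset_closure rfl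
    refine ⟨m, hmem, fun u v huv => ?_⟩
    have h3 : (n u).toAdd - (n v).toAdd ∈ Λ := ⟨u, v, huv, rfl⟩
    rw [hm, AddSubgroup.mem_closure_singleton] at h3
    obtain ⟨k, hk⟩ := h3
    exact ⟨k, by rw [← hk, smul_eq_mul]⟩
  obtain ⟨m, ⟨p, p', hpp, hpm⟩, hm⟩ := hN
  by_cases hm0 : m = 0
  · subst hm0
    have h4 : ∀ u v, f u = f v → n u = n v := by
      intro u v huv
      obtain ⟨k, hk⟩ := hm u v huv
      rw [mul_zero, sub_eq_zero] at hk
      exact Multiplicative.toAdd.injective hk
    refine ⟨R, hRfin, fun x hx => Prod.ext (hR x hx) (h4 _ _ (hR x hx)),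
      fun Q _ θ hθ u v huv => hRθ Q θ hθ u v (congrArg Prod.fst huv)⟩
  have hk : ∀ x : FreeMonoid A × FreeMonoid A, ∃ k : ℤ, x ∈ R →
      (n x.1).toAdd - (n x.2).toAdd = k * m := by
    intro x
    by_cases hx : x ∈ R
    · obtain ⟨k, hk⟩ := hm x.1 x.2 (hR x hx)
      exact ⟨k, fun _ => hk⟩
    · exact ⟨0, fun h => absurd h hx⟩
  choose k hk using hk
  let adj : FreeMonoid A × FreeMonoid A → FreeMonoid A × FreeMonoid A := fun x =>
    (x.1 * p' ^ (k x).toNat * p ^ (-k x).toNat, x.2 * p ^ (k x).toNat * p' ^ (-k x).toNat)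
  refine ⟨{(p * p', p' * p)} ∪ (Set.range fun a : A => (p * FreeMonoid.of a * p',
    p' * FreeMonoid.of a * p)) ∪ adj '' R,
    ((Set.finite_singleton _).union (Set.finite_range _)).union (hRfin.image _), ?_, ?_⟩
  · rintro x ((rfl | ⟨a, rfl⟩) | ⟨x, hx, rfl⟩)
    · ext1
      · simp [hpp]
      · simp [mul_comm]
    · ext1
      · simp [hpp]
      · change n (p * FreeMonoid.of a * p') = n (p' * FreeMonoid.of a * p)
        simp only [map_mul]
        rw [mul_comm (n p * n (FreeMonoid.of a)) (n p'), mul_comm (n p) (n (FreeMonoid.of a)),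
          mul_assoc]
    · ext1
      · simp [adj, hpp, hR x hx]
      · apply Multiplicative.toAdd.injective
        change (n (x.1 * p' ^ (k x).toNat * p ^ (-k x).toNat)).toAdd =
          (n (x.2 * p ^ (k x).toNat * p' ^ (-k x).toNat)).toAdd
        simp only [map_mul, map_pow, toAdd_mul, toAdd_pow, nsmul_eq_mul]
        have h1 := hk x hx
        have h2 : ((k x).toNat : ℤ) - ((-k x).toNat : ℤ) = k x := Int.toNat_sub_toNat_neg (k x)
        have h3 : k x * m = ((k x).toNat : ℤ) * ((n p).toAdd - (n p').toAdd) -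
            ((-k x).toNat : ℤ) * ((n p).toAdd - (n p').toAdd) := by
          rw [hpm, ← sub_mul, h2]
        linarith
  · intro Q _ θ hθ u v huv
    have hcomm : θ p * θ p' = θ p' * θ p := by
      have := hθ (p * p', p' * p) (Or.inl (Or.inl rfl))
      simpa using this
    have ha : ∀ a : A, θ p * θ (FreeMonoid.of a) * θ p' = θ p' * θ (FreeMonoid.of a) * θ p := by
      intro a
      have := hθ (p * FreeMonoid.of a * p', p' * FreeMonoid.of a * p)
        (Or.inl (Or.inr ⟨a, rfl⟩))
      simpa using this
    set y := θ p * (θ p')⁻¹ with hy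
    have hy' : y = (θ p')⁻¹ * θ p := by
      rw [hy, mul_inv_eq_iff_eq_mul, mul_assoc, hcomm, ← mul_assoc, inv_mul_cancel, one_mul]
    have hyof : ∀ a : A, θ (FreeMonoid.of a) * y = y * θ (FreeMonoid.of a) := by
      intro a
      have h1 := ha a
      calc θ (FreeMonoid.of a) * y
          = (θ p')⁻¹ * (θ p' * θ (FreeMonoid.of a) * θ p) * (θ p')⁻¹ := by rw [hy]; group
        _ = y * θ (FreeMonoid.of a) := by rw [← h1, hy']; group
    have hyw : ∀ w, θ w * y = y * θ w := by
      intro w
      induction w using FreeMonoid.inductionOn' with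
      | one => simp
      | of_mul a w ih => rw [map_mul, mul_assoc, ih, ← mul_assoc, hyof, mul_assoc]
    let C : Subgroup Q := Subgroup.centralizer {y}
    have hyC : y ∈ C := by
      rw [Subgroup.mem_centralizer_singleton_iff]
    have hθC : ∀ w, θ w ∈ C := by
      intro w
      rw [Subgroup.mem_centralizer_singleton_iff]
      exact hyw w
    let θC : FreeMonoid A →* C := θ.codRestrict C hθC
    have hθCv : ∀ w, (θC w : Q) = θ w := fun w => rfl
    let K : Subgroup (C × Multiplicative ℤ) :=
      Subgroup.zpowers ((⟨y, hyC⟩ : C), Multiplicative.ofAdd m)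
    have hK : K.Normal := by
      constructor
      intro z hz g
      rw [Subgroup.mem_zpowers_iff] at hz
      obtain ⟨j, rfl⟩ := hz
      have hcom : Commute g ((⟨y, hyC⟩ : C), Multiplicative.ofAdd m) := by
        ext1
        · apply Subtype.ext
          have := g.1.2
          rw [Subgroup.mem_centralizer_singleton_iff] at this
          exact this
        · exact mul_comm _ _
      have h5 := (hcom.zpow_right j).eq
      rw [h5, mul_assoc, mul_inv_cancel, mul_one]
      exact Subgroup.zpow_mem _ (Subgroup.mem_zpowers _) j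
    let θ' : FreeMonoid A →* (C × Multiplicative ℤ) ⧸ K :=
      (QuotientGroup.mk' K).comp (θC.prod n)
    have hθ' : ∀ u v, θ' u = θ' v ↔ ∃ j : ℤ, θ v = θ u * y ^ j ∧
        (n v).toAdd = (n u).toAdd + j * m := by
      intro u v
      change ((QuotientGroup.mk' K) (θC u, n u)) = (QuotientGroup.mk' K) (θC v, n v) ↔ _
      rw [QuotientGroup.mk'_apply, QuotientGroup.mk'_apply, QuotientGroup.eq,
        Subgroup.mem_zpowers_iff]
      apply exists_congr
      intro j
      rw [eq_inv_mul_iff_mul_eq]
      constructor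
      · intro h
        constructor
        · have h6 := congrArg (fun z => (z.1 : Q)) h
          simpa [hθCv] using h6.symm
        · have h6 := congrArg (fun z => z.2.toAdd) h
          simpa using h6.symm
      · rintro ⟨h6, h7⟩
        ext1
        · apply Subtype.ext
          simpa [hθCv] using h6.symm
        · apply Multiplicative.toAdd.injective
          simpa using h7.symm
    have hR' : ∀ x ∈ R, θ' x.1 = θ' x.2 := by
      intro x hx
      rw [hθ']
      refine ⟨-k x, ?_, ?_⟩
      · have h8 : θ (adj x).1 = θ (adj x).2 := hθ (adj x) (Or.inr ⟨x, hx, rfl⟩)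
        simp only [adj, map_mul, map_pow] at h8
        have hc1 : Commute (θ p) (θ p')⁻¹ := (show Commute (θ p) (θ p') from hcomm).inv_right
        have h9 : ∀ j : ℕ, y ^ j = θ p ^ j * ((θ p') ^ j)⁻¹ := by
          intro j
          rw [hy, hc1.mul_pow, inv_pow]
        have h10 : y ^ (k x) = y ^ (k x).toNat * (y ^ (-k x).toNat)⁻¹ := by
          conv_lhs => rw [← Int.toNat_sub_toNat_neg (k x)]
          rw [zpow_sub, zpow_natCast, zpow_natCast]
        have hcomm2 : Commute (θ p) (θ p') := hcomm
        have c1 : θ p ^ (k x).toNat * θ p' ^ (-k x).toNat =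
            θ p' ^ (-k x).toNat * θ p ^ (k x).toNat := (hcomm2.pow_pow _ _).eq
        have c2 : θ p ^ (-k x).toNat * θ p' ^ (k x).toNat =
            θ p' ^ (k x).toNat * θ p ^ (-k x).toNat := (hcomm2.pow_pow _ _).eq
        have h11 : θ x.1 = θ x.2 * y ^ (k x) := by
          rw [h10, h9, h9, mul_inv_rev, inv_inv]
          have h12 : θ x.1 * (θ p' ^ (k x).toNat * θ p ^ (-k x).toNat) =
              θ x.2 * (θ p ^ (k x).toNat * θ p' ^ (-k x).toNat) := by
            rw [← mul_assoc, ← mul_assoc]; exact h8
          rw [← eq_mul_inv_iff_mul_eq] at h12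
          rw [h12, mul_assoc]
          congr 1
          rw [mul_inv_rev]
          have c3 : Commute (θ p' ^ (-k x).toNat) (θ p ^ (-k x).toNat)⁻¹ :=
            ((hcomm2.pow_pow _ _).symm).inv_right
          have c4 : Commute ((θ p' ^ (k x).toNat)⁻¹) (θ p' ^ (-k x).toNat) :=
            ((Commute.refl (θ p')).pow_pow _ _).inv_left
          have c5 : Commute ((θ p' ^ (k x).toNat)⁻¹) ((θ p ^ (-k x).toNat)⁻¹) :=
            ((hcomm2.pow_pow _ _).symm).inv_inv
          calc θ p ^ (k x).toNat * θ p' ^ (-k x).toNat *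
                ((θ p ^ (-k x).toNat)⁻¹ * (θ p' ^ (k x).toNat)⁻¹)
              = θ p ^ (k x).toNat * (θ p' ^ (-k x).toNat *
                ((θ p ^ (-k x).toNat)⁻¹ * (θ p' ^ (k x).toNat)⁻¹)) := by group
            _ = θ p ^ (k x).toNat * (θ p' ^ (-k x).toNat *
                ((θ p' ^ (k x).toNat)⁻¹ * (θ p ^ (-k x).toNat)⁻¹)) := by rw [c5.eq]
            _ = θ p ^ (k x).toNat * ((θ p' ^ (-k x).toNat * (θ p' ^ (k x).toNat)⁻¹) *
                (θ p ^ (-k x).toNat)⁻¹) := by group
            _ = θ p ^ (k x).toNat * (((θ p' ^ (k x).toNat)⁻¹ * θ p' ^ (-k x).toNat) *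
                (θ p ^ (-k x).toNat)⁻¹) := by rw [c4.eq]
            _ = θ p ^ (k x).toNat * (θ p' ^ (k x).toNat)⁻¹ *
                (θ p' ^ (-k x).toNat * (θ p ^ (-k x).toNat)⁻¹) := by group
        rw [h11, mul_assoc, ← zpow_add, add_neg_cancel, zpow_zero, mul_one]
      · have := hk x hx
        linarith
    have h13 := (hθ' u v).1 (hRθ _ θ' hR' u v (congrArg Prod.fst huv))
    obtain ⟨j, hj1, hj2⟩ := h13
    have h14 : n u = n v := congrArg Prod.snd huv
    rw [h14] at hj2
    have h15 : j * m = 0 := by linarith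
    have h16 : j = 0 := by
      rcases mul_eq_zero.1 h15 with h | h
      · exact h
      · exact absurd h hm0
    rw [hj1, h16, zpow_zero, mul_one]

theorem toFG_injective (B : Type u) : Function.Injective (toFG B) := by
  have h : ∀ w : FreeMonoid B, toFG B w = pos w.toList := by
    intro w
    induction w using FreeMonoid.inductionOn' with
    | one => rfl
    | of_mul a w ih =>
      rw [map_mul, ih, FreeMonoid.toList_mul, pos_append]
      rfl
  intro a b hab
  rw [h, h] at hab
  exact FreeMonoid.toList.injective (pos_injective hab)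

/-- Finitely generated submonoids of free monoids have finite bases of relations. -/
theorem finBased_free {A : Type} [Finite A] (X : Type u) (f : FreeMonoid A →* FreeMonoid X) :
    FinBased ((toFG X).comp f) := by
  let j : FreeMonoid X →* Wd X PUnit.{1} := (toWd X PUnit.{1}).comp Monoid.Coprod.inl
  have hj : Function.Injective j := (toWd_injective X PUnit.{1}).comp Monoid.Coprod.inl_injective
  have hG : Group.IsVirtuallyNilpotent PUnit.{1} :=
    Group.IsNilpotent.isVirtuallyNilpotent inferInstance
  refine FinBased.congr ?_ (finBased_emb (j.comp f) hG)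
  intro u v
  simp only [MonoidHom.comp_apply]
  rw [(emb_injective X PUnit.{1}).eq_iff, hj.eq_iff, (toFG_injective X).eq_iff]

/-- The embedding of `FreeMonoid X × Multiplicative ℕ` into a group. -/
def embProd (X : Type u) : FreeMonoid X × Multiplicative ℕ →* FreeGroup X × Multiplicative ℤ :=
  (toFG X).prodMap (AddMonoidHom.toMultiplicative (Nat.castAddMonoidHom ℤ))

theorem embProd_injective (X : Type u) : Function.Injective (embProd X) := by
  rintro ⟨a, m⟩ ⟨b, n⟩ h
  ext1
  · exact toFG_injective X (congrArg Prod.fst h)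
  · have h2 := congrArg Prod.snd h
    exact Nat.cast_injective (R := ℤ) h2

theorem malcevCoherent_prod (X : Type u) :
    MalcevCoherent (FreeMonoid X × Multiplicative ℕ) := by
  constructor
  · exact ⟨FreeGroup X × Multiplicative ℤ, inferInstance, (embProd X : _ →* _),
      embProd_injective X⟩
  · intro s hs
    apply hasFMP_of_finBased (embProd X) (embProd_injective X) ?_ s hs
    intro n f
    have h1 := (finBased_free X ((MonoidHom.fst _ _).comp f)).prod_int
      ((AddMonoidHom.toMultiplicative (Nat.castAddMonoidHom ℤ)).comp ((MonoidHom.snd _ _).comp f))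
    refine h1.congr fun u v => ?_
    rfl

end Pool.Agent.MalcevCoh
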