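import Mathlib
import Pool.Agent.MalcevCoh.NormalForm
import Pool.Agent.MalcevCoh.ProdInt

/-!
# A free product with a free monoid that is not Malcev coherent

Let `M = {a, b, d}* × ℕ`, with `z` the generator of `ℕ`, and let `x` be a free generator. The
subsemigroup of the free product generated by `A = ad`, `B = bdz`, `A' = daz`, `B' = db`, `x`,
`p = xd`, `q = dx` satisfies the relation `p w(A,B) x = x w(A',B') q` exactly for the words `w`
with as many `A` as `B`, and this family of relations has no finite basis.
-/

namespace Pool.Agent.MalcevCoh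

universe u v w

/-- Base letters: the first component says whether the letter is primed, the second whether it is
`B` rather than `A`. -/
abbrev Base : Type := Bool × Bool

/-- The letters `A, B, A', B'` and `x, p, q`. -/
inductive Ltr : Type
  | base (β : Base) : Ltr
  | x : Ltr
  | p : Ltr
  | q : Ltr

instance : Finite Ltr := by
  refine Finite.of_surjective (fun s : Base ⊕ Fin 3 => match s with
    | Sum.inl β => Ltr.base β
    | Sum.inr 0 => Ltr.x
    | Sum.inr 1 => Ltr.p
    | Sum.inr 2 => Ltr.q) ?_
  rintro (β | _ | _ | _)
  · exact ⟨Sum.inl β, rfl⟩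
  · exact ⟨Sum.inr 0, rfl⟩
  · exact ⟨Sum.inr 1, rfl⟩
  · exact ⟨Sum.inr 2, rfl⟩

/-- The monoid `{a, b, d}* × ℕ`, with `a = 0`, `b = 1`, `d = 2`. -/
abbrev MM3 : Type := FreeMonoid (Fin 3) × Multiplicative ℕ

/-- The letter `a` or `b`. -/
def cl : Bool → Fin 3
  | false => 0
  | true => 1

/-- The word in `a, b, d` of a base letter. -/
def blk (β : Base) : List (Fin 3) := if β.1 then [2, cl β.2] else [cl β.2, 2]

/-- The exponent of `z` in a base letter. -/
def zz (β : Base) : ℕ := if xor β.1 β.2 then 1 else 0

/-- The value of a base letter. -/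
def mb (β : Base) : MM3 := (FreeMonoid.ofList (blk β), Multiplicative.ofAdd (zz β))

/-- The element `d`. -/
def dd : MM3 := (FreeMonoid.of 2, 1)

/-- The concatenation of the words of the letters of `s`. -/
def flat (s : List Base) : List (Fin 3) := s.flatMap blk

@[simp] theorem flat_nil : flat [] = [] := rfl

@[simp] theorem flat_cons (β : Base) (s : List Base) : flat (β :: s) = blk β ++ flat s := rfl

/-- The product of the values of base letters. -/
def sprod (s : List Base) : MM3 := (s.map mb).prod

theorem sprod_eq (s : List Base) :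
    sprod s = (FreeMonoid.ofList (flat s), Multiplicative.ofAdd (s.map zz).sum) := by
  induction s with
  | nil => rfl
  | cons β s ih =>
    have : sprod (β :: s) = mb β * sprod s := by simp [sprod]
    rw [this, ih]
    rfl

/-- `d` or `1`. -/
def dpow (ρ : Bool) : MM3 := if ρ then dd else 1

/-- `d` or the empty word. -/
def dl (ρ : Bool) : List (Fin 3) := if ρ then [2] else []

theorem dpow_eq (ρ : Bool) : dpow ρ = (FreeMonoid.ofList (dl ρ), Multiplicative.ofAdd 0) := by
  cases ρ <;> rfl

/-- The value of a gap. -/
def mval (t : Bool × List Base × Bool) : MM3 := dpow t.1 * sprod t.2.1 * dpow t.2.2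

theorem mval_eq (ρ : Bool) (s : List Base) (μ : Bool) : mval (ρ, s, μ) =
    (FreeMonoid.ofList (dl ρ ++ flat s ++ dl μ), Multiplicative.ofAdd (s.map zz).sum) := by
  change dpow ρ * sprod s * dpow μ = _
  rw [dpow_eq, dpow_eq, sprod_eq]
  ext1
  · rfl
  · change Multiplicative.ofAdd (0 + (s.map zz).sum + 0) = _
    simp

/-! ### The permutations -/

/-- The shift by one on the integers, on both copies. -/
def permA : Equiv.Perm (ℤ × Bool) := (Equiv.addRight (1 : ℤ)).prodCongr (Equiv.refl Bool)

/-- The exchange of `K` and `K + 1` followed by the shift by minus one, on both copies. -/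
def permB (K : ℤ) : Equiv.Perm (ℤ × Bool) :=
  ((Equiv.swap K (K + 1)).trans (Equiv.addRight (-1 : ℤ))).prodCongr (Equiv.refl Bool)

/-- The exchange of the two copies of zero. -/
def permT : Equiv.Perm (ℤ × Bool) := Equiv.swap (0, true) (0, false)

theorem permA_apply (i : ℤ) (ε : Bool) : permA (i, ε) = (i + 1, ε) := rfl

theorem permB_apply (K i : ℤ) (ε : Bool) :
    permB K (i, ε) = (Equiv.swap K (K + 1) i + -1, ε) := rfl

/-- The permutation of a base letter. -/
def permBase (K : ℤ) (β : Base) : Equiv.Perm (ℤ × Bool) := if β.2 then permB K else permA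

/-- The permutation of a letter. -/
def permL (K : ℤ) : Ltr → Equiv.Perm (ℤ × Bool)
  | Ltr.base β => permBase K β
  | Ltr.x => 1
  | Ltr.p => permT
  | Ltr.q => permT

/-- `permT` or `1`. -/
def tpow (ρ : Bool) : Equiv.Perm (ℤ × Bool) := if ρ then permT else 1

@[simp] theorem tpow_false : tpow false = 1 := rfl

@[simp] theorem tpow_true : tpow true = permT := rfl

/-- The permutation of a gap. -/
def tval (K : ℤ) (t : Bool × List Base × Bool) : Equiv.Perm (ℤ × Bool) :=
  tpow t.1 * (t.2.1.map (permBase K)).prod * tpow t.2.2

/-- The height of a word in the base letters: the number of `A` minus the number of `B`. -/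
def ht (s : List Base) : ℤ := (s.map fun β => if β.2 then (-1 : ℤ) else 1).sum

theorem ht_cons (β : Base) (s : List Base) :
    ht (β :: s) = (if β.2 then (-1 : ℤ) else 1) + ht s := by
  simp [ht]

theorem ht_le (s : List Base) : ht s ≤ s.length ∧ -(s.length : ℤ) ≤ ht s := by
  induction s with
  | nil => simp [ht]
  | cons β s ih =>
    rw [ht_cons]
    push_cast [List.length_cons]
    split_ifs <;> constructor <;> linarith [ih.1, ih.2]

theorem perm_path (K : ℤ) (ε : Bool) (s : List Base) (hs : (s.length : ℤ) < K) :
    (s.map (permBase K)).prod (0, ε) = (ht s, ε) := by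
  induction s with
  | nil => simp [ht]
  | cons β s ih =>
    have hs' : (s.length : ℤ) + 1 < K := by
      have := hs
      push_cast [List.length_cons] at this
      exact this
    rw [List.map_cons, List.prod_cons, Equiv.Perm.mul_apply, ih (by omega), ht_cons]
    have h1 := ht_le s
    unfold permBase
    split_ifs
    · rw [permB_apply, Equiv.swap_apply_of_ne_of_ne (by omega) (by omega), add_comm]
    · rw [permA_apply, add_comm]

/-! ### Combinatorics of the words -/

theorem blk_length (β : Base) : (blk β).length = 2 := by
  unfold blk; split_ifs <;> rfl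

theorem blk_injective : Function.Injective blk := by
  rintro ⟨c, b⟩ ⟨c', b'⟩ h
  revert h
  cases c <;> cases b <;> cases c' <;> cases b' <;> simp [blk, cl]

theorem flat_injective : ∀ s s' : List Base, flat s = flat s' → s = s' := by
  intro s
  induction s with
  | nil =>
    intro s' h
    cases s' with
    | nil => rfl
    | cons β s' =>
      have := congrArg List.length h
      simp [blk_length] at this
      try omega
  | cons β s ih =>
    intro s' h
    cases s' with
    | nil =>
      have := congrArg List.length h
      simp [blk_length] at this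
      try omega
    | cons β' s' =>
      rw [flat_cons, flat_cons] at h
      obtain ⟨h1, h2⟩ := List.append_inj h (by rw [blk_length, blk_length])
      rw [blk_injective h1, ih s' h2]

/-- Twice the number of `d` minus the length. -/
def dcount (l : List (Fin 3)) : ℤ := 2 * (l.count 2 : ℤ) - l.length

theorem dcount_append (l l' : List (Fin 3)) : dcount (l ++ l') = dcount l + dcount l' := by
  unfold dcount
  rw [List.count_append, List.length_append]
  push_cast
  ring

theorem dcount_flat (s : List Base) : dcount (flat s) = 0 := by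
  induction s with
  | nil => rfl
  | cons β s ih =>
    rw [flat_cons, dcount_append, ih]
    obtain ⟨c, b⟩ := β
    cases c <;> cases b <;> rfl

theorem dcount_dl (ρ : Bool) : dcount (dl ρ) = if ρ then 1 else 0 := by
  cases ρ <;> rfl

theorem flat_shift : ∀ s s' : List Base, 2 :: flat s = flat s' ++ [2] →
    (∀ β ∈ s, β.1 = false) ∧ s' = s.map fun β => (true, β.2) := by
  intro s
  induction s with
  | nil =>
    intro s' h
    cases s' with
    | nil => simp
    | cons β s' =>
      have := congrArg List.length h
      simp [blk_length] at this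
      try omega
  | cons β s ih =>
    intro s' h
    cases s' with
    | nil =>
      have := congrArg List.length h
      simp [blk_length] at this
      try omega
    | cons β' s' =>
      obtain ⟨c, b⟩ := β
      obtain ⟨c', b'⟩ := β'
      cases c
      · cases c'
        · exfalso
          revert h
          cases b' <;> simp [blk, cl]
        · have hb : cl b = cl b' ∧ 2 :: flat s = flat s' ++ [2] := by
            revert h
            simp [blk]
          have hbb : b = b' := by
            revert hb
            cases b <;> cases b' <;> simp [cl]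
          obtain ⟨h1, h2⟩ := ih s' hb.2
          subst hbb
          refine ⟨?_, ?_⟩
          · intro β hβ
            rcases List.mem_cons.1 hβ with rfl | hβ
            · rfl
            · exact h1 β hβ
          · rw [List.map_cons, ← h2]
      · exfalso
        revert h
        cases c' <;> cases b' <;> simp [blk, cl]

theorem flat_shift_conv : ∀ s : List Base, (∀ β ∈ s, β.1 = false) →
    2 :: flat s = flat (s.map fun β => (true, β.2)) ++ [2] := by
  intro s
  induction s with
  | nil => intro _; rfl
  | cons β s ih =>
    intro h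
    obtain ⟨c, b⟩ := β
    have hc : c = false := h (c, b) (by simp)
    subst hc
    have := ih (fun β hβ => h β (List.mem_cons_of_mem _ hβ))
    simp only [List.map_cons, flat_cons]
    simp [blk, this]

theorem sum_zz_unprimed (s : List Base) (h : ∀ β ∈ s, β.1 = false) :
    ((s.map fun β => ((true, β.2) : Base)).map zz).sum = (s.map zz).sum + ht s := by
  induction s with
  | nil => simp [ht]
  | cons β s ih =>
    obtain ⟨c, b⟩ := β
    have hc : c = false := h (c, b) (by simp)
    subst hc
    have := ih (fun β hβ => h β (List.mem_cons_of_mem _ hβ))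
    rw [ht_cons]
    simp only [List.map_cons, List.sum_cons, Nat.cast_add]
    rw [this]
    cases b <;> simp [zz] <;> ring

/-- The key point: short gaps with the same value have the same permutation. -/
theorem tval_eq_of_mval_eq (K : ℤ) (ρ : Bool) (s : List Base) (μ ρ' : Bool) (s' : List Base)
    (μ' : Bool) (hs : (s.length : ℤ) < K) (hs' : (s'.length : ℤ) < K)
    (h : mval (ρ, s, μ) = mval (ρ', s', μ')) : tval K (ρ, s, μ) = tval K (ρ', s', μ') := by
  rw [mval_eq, mval_eq] at h
  have h1 : dl ρ ++ flat s ++ dl μ = dl ρ' ++ flat s' ++ dl μ' :=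
    FreeMonoid.ofList.injective (congrArg Prod.fst h)
  have h2 : (s.map zz).sum = (s'.map zz).sum :=
    Multiplicative.ofAdd.injective (congrArg Prod.snd h)
  have h3 := congrArg dcount h1
  simp only [dcount_append, dcount_flat, dcount_dl] at h3
  -- two gaps of the two unbalanced types
  have key : ∀ t t' : List Base, (t.length : ℤ) < K → (t.map zz).sum = (t'.map zz).sum →
      2 :: flat t = flat t' ++ [2] →
      permT * (t.map (permBase K)).prod = (t'.map (permBase K)).prod * permT := by
    intro t t' hlt ht2 ht3
    obtain ⟨h4, rfl⟩ := flat_shift t t' ht3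
    have h5 := sum_zz_unprimed t h4
    have h6 : ht t = 0 := by
      rw [← ht2] at h5
      linarith
    have h7 : ((t.map fun β => ((true, β.2) : Base)).map (permBase K)) =
        t.map (permBase K) := by
      rw [List.map_map]
      rfl
    rw [h7]
    have h8 := perm_path K true t hlt
    have h9 := perm_path K false t hlt
    rw [h6] at h8 h9
    unfold permT
    rw [Equiv.mul_swap_eq_swap_mul, h8, h9]
  cases ρ <;> cases μ <;> cases ρ' <;> cases μ' <;> simp at h3
  · have h4 : flat s = flat s' := by simpa [dl] using h1
    rw [flat_injective s s' h4]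
  · have h4 : flat s = flat s' := by simpa [dl] using h1
    rw [flat_injective s s' h4]
  · have h4 : 2 :: flat s' = flat s ++ [2] := by
      have := h1.symm
      simpa [dl] using this
    have := key s' s hs' h2.symm h4
    simpa [tval, tpow] using this.symm
  · have h4 : 2 :: flat s = flat s' ++ [2] := by simpa [dl] using h1
    have := key s s' hs h2 h4
    simpa [tval, tpow] using this
  · have h4 : flat s = flat s' := by simpa [dl] using h1
    rw [flat_injective s s' h4]
  · have h4 : flat s = flat s' := by simpa [dl] using h1
    rw [flat_injective s s' h4]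

/-! ### Words in the seven letters -/

/-- The decomposition of a word into gaps. -/
def dec : List Ltr → (List Base × Bool) × List (Bool × List Base × Bool)
  | [] => (([], false), [])
  | Ltr.base β :: u => ((β :: (dec u).1.1, (dec u).1.2), (dec u).2)
  | Ltr.x :: u => (([], false), (false, (dec u).1.1, (dec u).1.2) :: (dec u).2)
  | Ltr.p :: u => (([], false), (true, (dec u).1.1, (dec u).1.2) :: (dec u).2)
  | Ltr.q :: u => (([], true), (false, (dec u).1.1, (dec u).1.2) :: (dec u).2)

theorem dec_length (u : List Ltr) : (dec u).1.1.length ≤ u.length ∧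
    ∀ t ∈ (dec u).2, t.2.1.length ≤ u.length := by
  induction u with
  | nil => simp [dec]
  | cons l u ih =>
    obtain ⟨h1, h2⟩ := ih
    cases l with
    | base β =>
      simp only [dec, List.length_cons]
      exact ⟨by omega, fun t ht => (h2 t ht).trans (Nat.le_succ _)⟩
    | x =>
      simp only [dec, List.length_cons, List.length_nil, List.mem_cons]
      refine ⟨by omega, ?_⟩
      rintro t (rfl | ht)
      · exact h1.trans (Nat.le_succ _)
      · exact (h2 t ht).trans (Nat.le_succ _)
    | p =>
      simp only [dec, List.length_cons, List.length_nil, List.mem_cons]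
      refine ⟨by omega, ?_⟩
      rintro t (rfl | ht)
      · exact h1.trans (Nat.le_succ _)
      · exact (h2 t ht).trans (Nat.le_succ _)
    | q =>
      simp only [dec, List.length_cons, List.length_nil, List.mem_cons]
      refine ⟨by omega, ?_⟩
      rintro t (rfl | ht)
      · exact h1.trans (Nat.le_succ _)
      · exact (h2 t ht).trans (Nat.le_succ _)

theorem perm_dec (K : ℤ) (u : List Ltr) : (u.map (permL K)).prod =
    tval K (false, (dec u).1.1, (dec u).1.2) * ((dec u).2.map (tval K)).prod := by
  induction u with
  | nil => simp [dec, tval, tpow]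
  | cons l u ih =>
    rw [List.map_cons, List.prod_cons, ih]
    cases l <;> simp [dec, tval, permL, mul_assoc]

section

variable {X : Type u} (x : X)

open Monoid.Coprod

/-- The elements of the free product given by the letters. -/
def gen : Ltr → Monoid.Coprod (FreeMonoid X) MM3
  | Ltr.base β => inr (mb β)
  | Ltr.x => inl (FreeMonoid.of x)
  | Ltr.p => inl (FreeMonoid.of x) * inr dd
  | Ltr.q => inr dd * inl (FreeMonoid.of x)

theorem gen_dec (u : List Ltr) : (u.map (gen x)).prod =
    EE (mval (false, (dec u).1.1, (dec u).1.2)) ((dec u).2.map fun t => (x, mval t)) := by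
  induction u with
  | nil => simp [dec, mval, dpow, sprod, EE]
  | cons l u ih =>
    rw [List.map_cons, List.prod_cons, ih]
    cases l with
    | base β =>
      simp only [gen, dec]
      rw [inr_mul_EE]
      simp [mval, dpow, sprod, mul_assoc]
    | x =>
      simp only [gen, dec, List.map_cons]
      rw [EE_cons]
      simp [mval, dpow, sprod]
    | p =>
      simp only [gen, dec, List.map_cons]
      rw [EE_cons, mul_assoc, inr_mul_EE]
      simp [mval, dpow, sprod, mul_assoc]
    | q =>
      simp only [gen, dec, List.map_cons]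
      rw [EE_cons]
      simp [mval, dpow, sprod, mul_assoc]

theorem tval_prod_eq (K : ℤ) : ∀ l l' : List (Bool × List Base × Bool),
    (∀ t ∈ l, (t.2.1.length : ℤ) < K) → (∀ t ∈ l', (t.2.1.length : ℤ) < K) →
    (l.map fun t => (x, mval t)) = (l'.map fun t => (x, mval t)) →
    (l.map (tval K)).prod = (l'.map (tval K)).prod := by
  intro l
  induction l with
  | nil =>
    intro l' _ _ h
    cases l' with
    | nil => rfl
    | cons t l' => simp at h
  | cons t l ih =>
    intro l' hl hl' h
    cases l' with
    | nil => simp at h
    | cons t' l' =>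
      simp only [List.map_cons, List.cons.injEq, Prod.mk.injEq, true_and] at h
      obtain ⟨ρ, s, μ⟩ := t
      obtain ⟨ρ', s', μ'⟩ := t'
      rw [List.map_cons, List.prod_cons, List.map_cons, List.prod_cons,
        tval_eq_of_mval_eq K ρ s μ ρ' s' μ' (hl (ρ, s, μ) (by simp)) (hl' (ρ', s', μ') (by simp)) h.1,
        ih l' (fun t ht => hl t (List.mem_cons_of_mem _ ht))
          (fun t ht => hl' t (List.mem_cons_of_mem _ ht)) h.2]

/-- Relations between short words hold for the permutations. -/
theorem perm_eq_of_gen_eq (K : ℤ) (u v : List Ltr) (hu : (u.length : ℤ) < K)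
    (hv : (v.length : ℤ) < K) (h : (u.map (gen x)).prod = (v.map (gen x)).prod) :
    (u.map (permL K)).prod = (v.map (permL K)).prod := by
  rw [gen_dec, gen_dec] at h
  obtain ⟨h1, h2⟩ := EE_inj (embProd (Fin 3)) (embProd_injective (Fin 3)) h
  have lu := dec_length u
  have lv := dec_length v
  rw [perm_dec, perm_dec, tval_eq_of_mval_eq K _ _ _ _ _ _ ?_ ?_ h1,
    tval_prod_eq x K _ _ ?_ ?_ h2]
  · intro t ht
    have := lu.2 t ht
    omega
  · intro t ht
    have := lv.2 t ht
    omega
  · have := lu.1
    omega
  · have := lv.1
    omega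

/-- The word `Bᵏ Aᵏ`. -/
def ww (k : ℕ) : List Base := List.replicate k (false, true) ++ List.replicate k (false, false)

theorem ww_unprimed (k : ℕ) : ∀ β ∈ ww k, β.1 = false := by
  intro β hβ
  rcases List.mem_append.1 hβ with h | h
  · rw [(List.mem_replicate.1 h).2]
  · rw [(List.mem_replicate.1 h).2]

theorem ht_ww (k : ℕ) : ht (ww k) = 0 := by
  simp [ht, ww]

/-- The two words of the long relation. -/
def wordU (k : ℕ) : List Ltr := Ltr.p :: ((ww k).map Ltr.base ++ [Ltr.x])

/-- The two words of the long relation. -/
def wordV (k : ℕ) : List Ltr :=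
  Ltr.x :: (((ww k).map fun β => ((true, β.2) : Base)).map Ltr.base ++ [Ltr.q])

theorem dd_mul_sprod (k : ℕ) :
    dd * sprod (ww k) = sprod ((ww k).map fun β => ((true, β.2) : Base)) * dd := by
  rw [sprod_eq, sprod_eq]
  have h1 := flat_shift_conv (ww k) (ww_unprimed k)
  have h2 := sum_zz_unprimed (ww k) (ww_unprimed k)
  rw [ht_ww, add_zero] at h2
  have h3 := Nat.cast_injective (R := ℤ) h2
  ext1
  · exact congrArg FreeMonoid.ofList h1
  · change Multiplicative.ofAdd (0 + ((ww k).map zz).sum) = Multiplicative.ofAdd
      ((((ww k).map fun β => ((true, β.2) : Base)).map zz).sum + 0)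
    rw [h3, zero_add, add_zero]

theorem gen_long (k : ℕ) : ((wordU k).map (gen x)).prod = ((wordV k).map (gen x)).prod := by
  have h : ∀ s : List Base, ((s.map Ltr.base).map (gen x)).prod = inr (sprod s) := by
    intro s
    rw [sprod, map_list_prod, List.map_map, List.map_map]
    rfl
  simp only [wordU, wordV, List.map_cons, List.prod_cons, List.map_append, List.prod_append,
    h, List.map_nil, List.prod_nil, gen, mul_one]
  calc inl (FreeMonoid.of x) * inr dd * (inr (sprod (ww k)) * inl (FreeMonoid.of x))
      = inl (FreeMonoid.of x) * inr (dd * sprod (ww k)) * inl (FreeMonoid.of x) := by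
        rw [map_mul]; simp only [mul_assoc]
    _ = _ := by rw [dd_mul_sprod, map_mul]; simp only [mul_assoc]

theorem permA_pow (k : ℕ) (i : ℤ) (ε : Bool) : (permA ^ k) (i, ε) = (i + k, ε) := by
  induction k with
  | zero => simp
  | succ k ih =>
    rw [pow_succ', Equiv.Perm.mul_apply, ih, permA_apply]
    push_cast
    rw [add_assoc]

theorem permB_pow (K : ℤ) (k : ℕ) (ε : Bool) : (permB K ^ k) (K, ε) = (K, ε) := by
  induction k with
  | zero => simp
  | succ k ih =>
    rw [pow_succ', Equiv.Perm.mul_apply, ih, permB_apply, Equiv.swap_apply_left]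
    simp

theorem perm_long (k : ℕ) (hk : 0 < k) :
    ((wordU k).map (permL k)).prod ≠ ((wordV k).map (permL k)).prod := by
  intro h
  have hw : ∀ s : List Base, ((s.map Ltr.base).map (permL k)).prod =
      (s.map (permBase k)).prod := by
    intro s
    rw [List.map_map]
    rfl
  have h7 : (((ww k).map fun β => ((true, β.2) : Base)).map (permBase k)) =
      (ww k).map (permBase k) := by
    rw [List.map_map]
    rfl
  simp only [wordU, wordV, List.map_cons, List.prod_cons, List.map_append, List.prod_append,
    hw, h7, List.map_nil, List.prod_nil, permL, mul_one, one_mul] at h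
  have hww : ∀ ε, ((ww k).map (permBase k)).prod (0, ε) = ((k : ℤ), ε) := by
    intro ε
    rw [ww, List.map_append, List.prod_append, List.map_replicate, List.map_replicate,
      List.prod_replicate, List.prod_replicate, Equiv.Perm.mul_apply]
    change (permB k ^ k) ((permA ^ k) (0, ε)) = _
    rw [permA_pow, zero_add, permB_pow]
  have h1 := congrArg (fun σ : Equiv.Perm (ℤ × Bool) => σ (0, true)) h
  simp only [Equiv.Perm.mul_apply] at h1
  rw [hww, permT, Equiv.swap_apply_left, hww, Equiv.swap_apply_of_ne_of_ne] at h1
  · simp at h1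
  · intro h2
    have := congrArg Prod.fst h2
    simp at this
    omega
  · intro h2
    have := congrArg Prod.fst h2
    simp at this
    omega

/-- The subsemigroup generated by the seven elements has no finite Malcev presentation. -/
theorem not_hasFMP : ¬ HasFiniteMalcevPresentation (Subsemigroup.closure (Set.range (gen x))) := by
  intro hfmp
  have hT : ∀ y, y ∈ Subsemigroup.closure (Set.range (gen x)) ↔
      ∃ w, FreeSemigroup.lift (gen x) w = y := by
    intro y
    constructor
    · intro hy
      induction hy using Subsemigroup.closure_induction with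
      | mem y hy =>
        obtain ⟨l, rfl⟩ := hy
        exact ⟨FreeSemigroup.of l, by simp⟩
      | mul a b _ _ ha hb =>
        obtain ⟨w, rfl⟩ := ha
        obtain ⟨w', rfl⟩ := hb
        exact ⟨w * w', by simp⟩
    · rintro ⟨w, rfl⟩
      induction w using FreeSemigroup.recOnMul with
      | ih1 k =>
        rw [FreeSemigroup.lift_of]
        exact Subsemigroup.subset_closure ⟨k, rfl⟩
      | ih2 k w h1 h2 =>
        rw [map_mul]
        exact Subsemigroup.mul_mem _ h1 h2
  obtain ⟨ρ, hρfin, hρ, hρθ⟩ := hfmp.relations _ (gen x) hT
  -- a bound on the lengths of the words in `ρ`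
  obtain ⟨N, hN⟩ : ∃ N : ℕ, ∀ p ∈ ρ, (FreeSemigroup.toFreeMonoid p.1).toList.length ≤ N ∧
      (FreeSemigroup.toFreeMonoid p.2).toList.length ≤ N := by
    obtain ⟨N₁, hN₁⟩ := (hρfin.image fun p : FreeSemigroup Ltr × FreeSemigroup Ltr =>
      (FreeSemigroup.toFreeMonoid p.1).toList.length).bddAbove
    obtain ⟨N₂, hN₂⟩ := (hρfin.image fun p : FreeSemigroup Ltr × FreeSemigroup Ltr =>
      (FreeSemigroup.toFreeMonoid p.2).toList.length).bddAbove
    exact ⟨max N₁ N₂, fun p hp => ⟨(hN₁ ⟨p, hp, rfl⟩).trans (le_max_left _ _),
      (hN₂ ⟨p, hp, rfl⟩).trans (le_max_right _ _)⟩⟩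
  have hgen : ∀ w : FreeSemigroup Ltr, FreeSemigroup.lift (gen x) w =
      ((FreeSemigroup.toFreeMonoid w).toList.map (gen x)).prod := by
    intro w
    rw [← lift_toFreeMonoid, FreeMonoid.lift_apply]
  have hperm : ∀ w : FreeSemigroup Ltr, FreeSemigroup.lift (permL (N + 1 : ℕ)) w =
      ((FreeSemigroup.toFreeMonoid w).toList.map (permL (N + 1 : ℕ))).prod := by
    intro w
    rw [← lift_toFreeMonoid, FreeMonoid.lift_apply]
  have h1 : ∀ p ∈ ρ, FreeSemigroup.lift (permL (N + 1 : ℕ)) p.1 =
      FreeSemigroup.lift (permL (N + 1 : ℕ)) p.2 := by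
    intro p hp
    rw [hperm, hperm]
    have h2 := hN p hp
    apply perm_eq_of_gen_eq x
    · push_cast; omega
    · push_cast; omega
    · rw [← hgen, ← hgen]
      exact hρ p hp
  have h3 := hρθ (Equiv.Perm (ℤ × Bool)) (permL (N + 1 : ℕ)) h1
  let U : FreeSemigroup Ltr := ⟨Ltr.p, (ww (N + 1)).map Ltr.base ++ [Ltr.x]⟩
  let V : FreeSemigroup Ltr := ⟨Ltr.x,
    ((ww (N + 1)).map fun β => ((true, β.2) : Base)).map Ltr.base ++ [Ltr.q]⟩
  have hU : (FreeSemigroup.toFreeMonoid U).toList = wordU (N + 1) := by
    rw [FreeSemigroup.toFreeMonoid_mk_eq_cons]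
    rfl
  have hV : (FreeSemigroup.toFreeMonoid V).toList = wordV (N + 1) := by
    rw [FreeSemigroup.toFreeMonoid_mk_eq_cons]
    rfl
  have h4 : FreeSemigroup.lift (gen x) U = FreeSemigroup.lift (gen x) V := by
    rw [hgen, hgen, hU, hV]
    exact gen_long x (N + 1)
  have h5 := h3 U V h4
  rw [hperm, hperm, hU, hV] at h5
  exact perm_long (N + 1) (Nat.succ_pos N) h5

end

/-- For `M = {a, b, d}* × ℕ` and a nontrivial free monoid `F`, the monoid `M` is Malcev coherent
and the free product `F * M` embeds in a group but is not Malcev coherent. -/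
theorem coprod_not_coherent (X : Type u) [Nonempty X] :
    GroupEmbeddable (Monoid.Coprod (FreeMonoid X) (FreeMonoid (Fin 3) × Multiplicative ℕ)) ∧
      ∃ s : Set (Monoid.Coprod (FreeMonoid X) (FreeMonoid (Fin 3) × Multiplicative ℕ)),
        s.Finite ∧ ¬ HasFiniteMalcevPresentation (Subsemigroup.closure s) := by
  obtain ⟨x⟩ := ‹Nonempty X›
  exact ⟨groupEmbeddable_coprod X _ (embProd (Fin 3)) (embProd_injective (Fin 3)),
    Set.range (gen x), Set.finite_range _, not_hasFMP x⟩

end Pool.Agent.MalcevCoh
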